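import Pool.Agent.Lib.MP_364230_h58.Count

/-!
# The bipartite case (MP_364230_co)

In a bipartite graph, of two consecutive vertices of a path of a minimum cover at least one is not
adjacent to the ends of the other paths.  (helper58)
-/

set_option autoImplicit false
open Finset

namespace Pool.Agent.Lib.MP_364230_h58

section acyclic

variable {W : Type*} {H : SimpleGraph W}

theorem acyclic_two (Z : W → Prop) (h1 : ∀ x y z, Z x → H.Adj x y → H.Adj x z → y = z)
    (h2 : ∀ x y z, ¬ Z x → ¬ Z y → ¬ Z z → H.Adj x y → H.Adj x z → y = z) : H.IsAcyclic := by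
  classical
  intro v c hc
  have key : ∀ x ∈ c.support, ¬ Z x := by
    intro x hx hZ
    have hc' := hc.rotate hx
    exact hc'.snd_ne_penultimate (h1 x _ _ hZ (SimpleGraph.Walk.adj_snd hc'.not_nil)
      (SimpleGraph.Walk.adj_penultimate hc'.not_nil).symm)
  exact hc.snd_ne_penultimate (h2 v _ _ (key v c.start_mem_support)
    (key _ (c.getVert_mem_support 1)) (key _ (c.getVert_mem_support _))
    (c.adj_snd hc.not_nil) (c.adj_penultimate hc.not_nil).symm)

end acyclic

variable {V : Type*} {G : SimpleGraph V}

/-- `z` is not adjacent to the ends of the paths other than `l` -/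
def Fr (G : SimpleGraph V) (L : List (List V)) (l : List V) (z : V) : Prop :=
  ∀ l2 ∈ L, l2 ≠ l → ∀ e ∈ ends l2, ¬ G.Adj z e

theorem two_ends {l : List V} {e e' : V} (he : e ∈ ends l) (he' : e' ∈ ends l) (hne : e ≠ e')
    (hc : l.IsChain G.Adj) :
    ∃ c : List V, (e :: (c ++ [e'])).IsChain G.Adj ∧ (e :: (c ++ [e'])).Perm l := by
  match l, he, he', hc with
  | [], he, _, _ => simp [ends] at he
  | [a], he, he', _ =>
    rw [ends, List.mem_singleton] at he he'
    exact absurd (he.trans he'.symm) hne
  | a :: b :: t, he, he', hc =>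
    have h0 : a :: ((b :: t).dropLast ++ [(b :: t).getLast (by simp)]) = a :: b :: t := by
      rw [List.dropLast_concat_getLast]
    rw [ends, List.mem_cons, List.mem_singleton] at he he'
    rcases he with rfl | rfl
    · rcases he' with rfl | rfl
      · exact absurd rfl hne
      · exact ⟨(b :: t).dropLast, by rw [h0]; exact hc, by rw [h0]⟩
    · rcases he' with rfl | rfl
      · refine ⟨(b :: t).dropLast.reverse, ?_, ?_⟩
        · have h1 := chain_reverse hc
          rw [← h0] at h1
          simpa using h1
        · have h1 := List.reverse_perm (e' :: b :: t)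
          rw [← h0] at h1
          rw [← h0]
          simpa using h1
      · exact absurd rfl hne

/-- of two consecutive vertices one is free -/
theorem consec_free (c : V → Bool) (hcol : ∀ x y, G.Adj x y → c x ≠ c y) {L : List (List V)}
    (hL : Opt G L) {l : List V} (hl : l ∈ L) {a d : List V} {z w : V}
    (he : l = a ++ z :: w :: d) : Fr G L l z ∨ Fr G L l w := by
  by_contra hcon
  push Not at hcon
  obtain ⟨hz, hw⟩ := hcon
  unfold Fr at hz hw
  push Not at hz hw
  obtain ⟨l2, hl2, hne2, e, he2, hze⟩ := hz
  obtain ⟨l3, hl3, hne3, e3, he3, hwe⟩ := hw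
  obtain ⟨L', hp⟩ := perm_two hl hl2 hne2.symm
  have hcov := cov_perm hL.cov hp.symm
  have hch : l.IsChain G.Adj := (hcov.1 l (by simp)).2
  have hch2 : l2.IsChain G.Adj := (hcov.1 l2 (by simp)).2
  rw [he, List.isChain_append_cons_cons] at hch
  obtain ⟨hc1, hzw, hc2⟩ := hch
  have hnew : ∀ r : List V, (e :: r).IsChain G.Adj → (e :: r).Perm l2 →
      IsPathCover G ((w :: d) :: ((a ++ [z]) ++ (e :: r)) :: L') := by
    intro r hr hrp
    refine cov_congr hcov ?_ ?_
    · intro m hm
      rw [List.mem_cons, List.mem_cons] at hm
      rcases hm with rfl | rfl | hm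
      · exact ⟨by simp, hc2⟩
      · exact ⟨by simp, chain_join hc1 hr hze⟩
      · exact hcov.1 m (by simp [hm])
    · classical
      rw [List.perm_iff_count]
      intro x
      have h1 := List.perm_iff_count.1 hrp x
      rw [he]
      simp only [List.flatten_cons, List.count_append, List.count_cons, List.count_nil] at h1 ⊢
      omega
  have hlen : ∀ r : List V, ((w :: d) :: ((a ++ [z]) ++ (e :: r)) :: L').length = L.length := by
    intro r
    rw [hp.length_eq]
    simp
  have hwend : IsEnd (w :: d) w := Or.inl ⟨d, rfl⟩
  have hczw := hcol z w hzw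
  have hcze := hcol z e hze
  have hcwe := hcol w e3 hwe
  by_cases h32 : l3 = l2
  · subst h32
    have hee : e ≠ e3 := by
      rintro rfl
      revert hczw hcze hcwe
      cases c z <;> cases c w <;> cases c e <;> simp
    obtain ⟨r, hr, hrp⟩ := two_ends he2 he3 hee hch2
    have h1 := hnew (r ++ [e3]) hr hrp
    refine end_nadj_min h1 (fun M hM => ?_) (List.Perm.refl _) hwend ?_ hwe
    · rw [hlen]
      exact hL.len M hM
    · exact Or.inr ⟨(a ++ [z]) ++ (e :: r), by simp⟩
  · obtain ⟨r, hr, hrp⟩ := end_head (isEnd_of_mem he2) hch2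
    have h1 := hnew r hr hrp
    have h3 : l3 ∈ L' := by
      have h4 := hp.mem_iff.1 hl3
      simp only [List.mem_cons] at h4
      rcases h4 with h4 | h4 | h4
      · exact absurd h4 hne3
      · exact absurd h4 h32
      · exact h4
    obtain ⟨L'', hL''⟩ : ∃ L'', L'.Perm (l3 :: L'') := by
      classical
      exact ⟨_, List.perm_cons_erase h3⟩
    refine end_nadj_min h1 (fun M hM => ?_)
      (L' := ((a ++ [z]) ++ (e :: r)) :: L'') (l2 := l3) ?_ hwend (isEnd_of_mem he3) hwe
    · rw [hlen]
      exact hL.len M hM
    · refine List.Perm.cons _ ?_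
      exact ((hL''.cons _).trans (List.Perm.swap _ _ _))

/-- colours alternate along a chain -/
theorem parity (c : V → Bool) (hcol : ∀ x y, G.Adj x y → c x ≠ c y) :
    ∀ (p : List V) (x y : V), (x :: (p ++ [y])).IsChain G.Adj →
      (c x ≠ c y ↔ Even p.length) := by
  intro p
  induction p with
  | nil =>
    intro x y h
    simp only [List.nil_append, List.isChain_cons_cons, List.isChain_singleton, and_true] at h
    simp [hcol x y h]
  | cons z p ih =>
    intro x y h
    rw [List.cons_append, List.isChain_cons_cons] at h
    have h1 := ih z y h.2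
    have h2 := hcol x z h.1
    rw [List.length_cons, Nat.even_add_one, ← h1]
    revert h2
    cases c x <;> cases c y <;> cases c z <;> simp

theorem half {P : V → Prop} [DecidablePred P] :
    ∀ m : List V, (∀ a z w d, m = a ++ z :: w :: d → P z ∨ P w) →
      m.length ≤ 2 * (m.filter P).length + 1 := by
  intro m
  induction m using List.twoStepInduction with
  | nil => intro _; simp
  | singleton x => intro _; simp
  | cons_cons x y t ih _ =>
    intro h
    have h1 := ih fun a z w d hd => h (x :: y :: a) z w d (by rw [hd]; rfl)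
    have h2 := h [] x y t rfl
    rw [List.filter_cons, List.filter_cons]
    simp only [decide_eq_true_eq]
    by_cases hx : P x
    · rw [if_pos hx]
      split_ifs <;> simp only [List.length_cons] <;> omega
    · have hy : P y := h2.resolve_left hx
      rw [if_neg hx, if_pos hy]
      simp only [List.length_cons]
      omega

end Pool.Agent.Lib.MP_364230_h58
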