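import Pool.Agent.Lib.MP_364230_h58.Bip

/-!
# The bipartite case, the two forests (MP_364230_co)  (helper58)
-/

set_option autoImplicit false
open Finset

namespace Pool.Agent.Lib.MP_364230_h58

variable {V : Type*} {G : SimpleGraph V}

open Classical in
/-- the free inner vertices of colour `i` -/
noncomputable def fre (G : SimpleGraph V) (c : V → Bool) (L : List (List V)) (i : Bool)
    (l m : List V) : List V := m.filter fun z => c z = i ∧ Fr G L l z

open Classical in
/-- the chosen vertices of the path `h, m, t` -/
noncomputable def sel0 (G : SimpleGraph V) (c : V → Bool) (L : List (List V)) (i : Bool)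
    (l : List V) (h : V) (m : List V) (t : V) : List V :=
  h :: (fre G c L i l m ++ if fre G c L i l m = [] ∨ c h = i ∨ c t = i then [t] else [])

/-- the chosen vertices of a path -/
noncomputable def sel (G : SimpleGraph V) (c : V → Bool) (L : List (List V)) (i : Bool) :
    List V → List V
  | [] => []
  | [a] => [a]
  | h :: b :: r => sel0 G c L i (h :: b :: r) h (b :: r).dropLast ((b :: r).getLast (by simp))

theorem sel_eq (c : V → Bool) (L : List (List V)) (i : Bool) (h : V) (m : List V) (t : V) :
    sel G c L i (h :: (m ++ [t])) = sel0 G c L i (h :: (m ++ [t])) h m t := by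
  cases m with
  | nil => rfl
  | cons x m =>
    change sel0 G c L i (h :: x :: (m ++ [t])) h (x :: (m ++ [t])).dropLast
      ((x :: (m ++ [t])).getLast _) = _
    have e1 : (x :: (m ++ [t])).dropLast = x :: m := by
      rw [← List.cons_append, List.dropLast_concat]
    have e2 : (x :: (m ++ [t])).getLast (by simp) = t := by
      simp
    rw [e1, e2]
    rfl

theorem ends_eq (h : V) (m : List V) (t : V) : ends (h :: (m ++ [t])) = [h, t] := by
  cases m with
  | nil => rfl
  | cons x m =>
    change [h, (x :: (m ++ [t])).getLast _] = _
    simp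

theorem exists_form {l : List V} (h : 2 ≤ l.length) : ∃ x m t, l = x :: (m ++ [t]) := by
  match l, h with
  | [], h => simp at h
  | [a], h => simp at h
  | a :: b :: r, _ =>
    exact ⟨a, (b :: r).dropLast, (b :: r).getLast (by simp), by rw [List.dropLast_concat_getLast]⟩

theorem sel0_sublist (c : V → Bool) (L : List (List V)) (i : Bool) (l : List V) (h : V)
    (m : List V) (t : V) : (sel0 G c L i l h m t).Sublist (h :: (m ++ [t])) := by
  unfold sel0
  refine List.Sublist.cons_cons _ (List.Sublist.append ?_ ?_)
  · exact List.filter_sublist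
  · split_ifs
    · exact List.Sublist.refl _
    · exact List.nil_sublist _

theorem sel_sublist (c : V → Bool) (L : List (List V)) (i : Bool) (l : List V) :
    (sel G c L i l).Sublist l := by
  match l with
  | [] => exact List.Sublist.refl _
  | [a] => exact List.Sublist.refl _
  | h :: b :: r =>
    have h1 := sel0_sublist (G := G) c L i (h :: b :: r) h (b :: r).dropLast
      ((b :: r).getLast (by simp))
    rw [List.dropLast_concat_getLast] at h1
    exact h1

open Classical in
theorem filter_split (c : V → Bool) (Q : V → Prop) (m : List V) :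
    (m.filter fun z => c z = true ∧ Q z).length + (m.filter fun z => c z = false ∧ Q z).length =
      (m.filter fun z => Q z).length := by
  induction m with
  | nil => rfl
  | cons x m ih =>
    simp only [List.filter_cons, decide_eq_true_eq]
    have hc : c x = true ∨ c x = false := by cases c x <;> simp
    split_ifs with h1 h2 h3 h4 <;> (try simp only [List.length_cons]) <;>
      first
        | omega
        | (exfalso
           rcases hc with hc | hc <;> simp_all)

/-- the number of chosen vertices -/
theorem sel_count (c : V → Bool) (hcol : ∀ x y, G.Adj x y → c x ≠ c y) {L : List (List V)}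
    (hL : Opt G L) {h t : V} {m : List V} (hl : h :: (m ++ [t]) ∈ L) :
    m.length + 7 ≤ 2 * ((sel G c L true (h :: (m ++ [t]))).length +
      (sel G c L false (h :: (m ++ [t]))).length) := by
  classical
  have hch : (h :: (m ++ [t])).IsChain G.Adj := (hL.cov.1 _ hl).2
  rw [sel_eq, sel_eq]
  unfold sel0
  set l := h :: (m ++ [t]) with hldef
  have hsplit := filter_split c (Fr G L l) m
  have hhalf : m.length ≤ 2 * (m.filter fun z => Fr G L l z).length + 1 := by
    refine half m fun a z w d hd => consec_free c hcol hL hl (a := h :: a) (d := d ++ [t]) ?_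
    rw [hldef, hd]
    simp
  have e1 : (fre G c L true l m).length = (m.filter fun z => c z = true ∧ Fr G L l z).length := rfl
  have e2 : (fre G c L false l m).length =
    (m.filter fun z => c z = false ∧ Fr G L l z).length := rfl
  rw [← e1, ← e2] at hsplit
  -- one free vertex of the colour different from the colour of both ends
  have hodd : ∀ j : Bool, c h = j → c t = j → fre G c L (!j) l m ≠ [] →
      m.length + 1 ≤ 2 * (m.filter fun z => Fr G L l z).length := by
    intro j hh ht hne
    obtain ⟨y, hy⟩ := List.exists_mem_of_ne_nil _ hne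
    unfold fre at hy
    rw [List.mem_filter] at hy
    simp only [decide_eq_true_eq] at hy
    obtain ⟨hym, hyc, hyF⟩ := hy
    obtain ⟨p, q, hpq⟩ := List.append_of_mem hym
    have hl2 : l = (h :: p) ++ y :: (q ++ [t]) := by
      rw [hldef, hpq]
      simp
    have hch2 := hch
    rw [hl2, List.isChain_split] at hch2
    have hp1 := (parity c hcol p h y hch2.1).1 (by rw [hh, hyc]; cases j <;> simp)
    have hq1 := (parity c hcol q y t hch2.2).1 (by rw [ht, hyc]; cases j <;> simp)
    have hp2 : p.length ≤ 2 * (p.filter fun z => Fr G L l z).length + 1 := by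
      refine half p fun a z w d hd => consec_free c hcol hL hl (a := h :: a)
        (d := d ++ y :: (q ++ [t])) ?_
      rw [hl2, hd]
      simp
    have hq2 : q.length ≤ 2 * (q.filter fun z => Fr G L l z).length + 1 := by
      refine half q fun a z w d hd => consec_free c hcol hL hl (a := h :: (p ++ y :: a))
        (d := d ++ [t]) ?_
      rw [hl2, hd]
      simp
    have e3 : (m.filter fun z => Fr G L l z).length =
        (p.filter fun z => Fr G L l z).length + ((q.filter fun z => Fr G L l z).length + 1) := by
      rw [hpq, List.filter_append, List.filter_cons, if_pos (by simpa using hyF)]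
      simp
    have e4 : m.length = p.length + (q.length + 1) := by rw [hpq]; simp
    rcases hp1 with ⟨u, hu⟩
    rcases hq1 with ⟨v, hv⟩
    omega
  have hhc : c h = true ∨ c h = false := by cases c h <;> simp
  have htc : c t = true ∨ c t = false := by cases c t <;> simp
  rcases hhc with hh | hh <;> rcases htc with ht | ht
  · by_cases hf : fre G c L false l m = []
    · rw [if_pos (Or.inr (Or.inl hh)), if_pos (Or.inl hf)]
      simp only [List.length_cons, List.length_append, List.length_nil]
      omega
    · have h3 := hodd true hh ht hf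
      rw [if_pos (Or.inr (Or.inl hh)), if_neg (by simp [hf, hh, ht])]
      simp only [List.length_cons, List.length_append, List.length_nil]
      omega
  · rw [if_pos (Or.inr (Or.inl hh)), if_pos (Or.inr (Or.inr ht))]
    simp only [List.length_cons, List.length_append, List.length_nil]
    omega
  · rw [if_pos (Or.inr (Or.inr ht)), if_pos (Or.inr (Or.inl hh))]
    simp only [List.length_cons, List.length_append, List.length_nil]
    omega
  · by_cases hf : fre G c L true l m = []
    · rw [if_pos (Or.inl hf), if_pos (Or.inr (Or.inl hh))]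
      simp only [List.length_cons, List.length_append, List.length_nil]
      omega
    · have h3 := hodd false hh ht hf
      rw [if_neg (by simp [hf, hh, ht]), if_pos (Or.inr (Or.inl hh))]
      simp only [List.length_cons, List.length_append, List.length_nil]
      omega

open Classical in
/-- the vertices of the forest of colour `i` on a path -/
noncomputable def fF (G : SimpleGraph V) (c : V → Bool) (L : List (List V)) (i : Bool)
    (l : List V) : List V := if Pt G L l then ends l else sel G c L i l

theorem fF_sublist (c : V → Bool) (L : List (List V)) (i : Bool) (l : List V) :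
    (fF G c L i l).Sublist l := by
  unfold fF
  split_ifs
  · exact ends_sublist l
  · exact sel_sublist c L i l

theorem not_pt_length {L : List (List V)} {l : List V} (h : l ≠ []) (hP : ¬ Pt G L l) :
    2 ≤ l.length := by
  have h5 : l.length ≠ 0 := fun h0 => h (List.length_eq_zero_iff.1 h0)
  have h6 : l.length ≠ 1 := by
    intro h1
    obtain ⟨s, rfl⟩ := List.length_eq_one_iff.1 h1
    exact hP (Or.inl ⟨s, rfl⟩)
  omega

theorem mem_fF {c : V → Bool} {L : List (List V)} {i : Bool} {l : List V} (hl0 : l ≠ [])
    {x : V} (hx : x ∈ fF G c L i l) (hxe : x ∉ ends l) :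
    ∃ h m t, l = h :: (m ++ [t]) ∧ fF G c L i l = sel0 G c L i l h m t ∧
      x ∈ fre G c L i l m ∧ c x = i ∧ Fr G L l x := by
  classical
  by_cases hP : Pt G L l
  · unfold fF at hx
    rw [if_pos hP] at hx
    exact absurd hx hxe
  · obtain ⟨h, m, t, rfl⟩ := exists_form (not_pt_length hl0 hP)
    have e1 : fF G c L i (h :: (m ++ [t])) = sel0 G c L i (h :: (m ++ [t])) h m t := by
      unfold fF
      rw [if_neg hP, sel_eq]
    rw [ends_eq] at hxe
    rw [e1] at hx
    have hxf : x ∈ fre G c L i (h :: (m ++ [t])) m := by
      unfold sel0 at hx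
      rw [List.mem_cons, List.mem_append] at hx
      rcases hx with rfl | hx | hx
      · simp at hxe
      · exact hx
      · exfalso
        split_ifs at hx
        · rw [List.mem_singleton] at hx
          subst hx
          simp at hxe
        · simp at hx
    refine ⟨h, m, t, rfl, e1, hxf, ?_⟩
    have h1 := hxf
    unfold fre at h1
    rw [List.mem_filter] at h1
    simpa using h1.2

/-- the forest of colour `i` -/
theorem forest_col (c : V → Bool) (hcol : ∀ x y, G.Adj x y → c x ≠ c y) {L : List (List V)}
    (hL : Opt G L) (i : Bool) (F : Finset V) (hF : ∀ x ∈ F, ∃ l ∈ L, x ∈ fF G c L i l) :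
    (G.induce (F : Set V)).IsAcyclic := by
  classical
  refine acyclic_two (fun x => ¬ ∃ l ∈ L, x.1 ∈ ends l) ?_ ?_
  · rintro ⟨x, hx⟩ ⟨y, hy⟩ ⟨z, hz⟩ hxE hxy hxz
    have hxy : G.Adj x y := hxy
    have hxz : G.Adj x z := hxz
    obtain ⟨l, hl, hxl⟩ := hF x hx
    have hxe : x ∉ ends l := fun h => hxE ⟨l, hl, h⟩
    have hl0 := (hL.cov.1 l hl).1
    obtain ⟨h, m, t, hform, hsel, hxf, hcx, hFr⟩ := mem_fF hl0 hxl hxe
    have hnd : l.Nodup := by
      have h1 := hL.cov.2.1
      rw [List.nodup_flatten] at h1
      exact h1.1 l hl
    -- neighbours of `x` in the forest are ends of `l`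
    have key : ∀ y, y ∈ (F : Set V) → G.Adj x y → (y = h ∨ y = t) ∧ y ∈ fF G c L i l := by
      intro y hy hxy
      obtain ⟨l2, hl2, hyl⟩ := hF y hy
      by_cases hye : y ∈ ends l2
      · by_cases h2 : l2 = l
        · subst h2
          rw [hform, ends_eq] at hye
          simp only [List.mem_cons, List.not_mem_nil, or_false] at hye
          exact ⟨hye, hyl⟩
        · exact absurd hxy (hFr l2 hl2 h2 y hye)
      · obtain ⟨_, _, _, _, _, _, hcy, _⟩ := mem_fF (hL.cov.1 l2 hl2).1 hyl hye
        exact absurd (hcx.trans hcy.symm) (hcol x y hxy)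
    -- not both ends
    have notboth : G.Adj x h → G.Adj x t → t ∈ fF G c L i l → False := by
      intro h1 h2 h3
      rw [hsel] at h3
      rw [hform] at hnd
      rw [List.nodup_cons, List.nodup_append] at hnd
      unfold sel0 at h3
      rw [List.mem_cons, List.mem_append] at h3
      rcases h3 with h3 | h3 | h3
      · exact hnd.1 (by rw [← h3]; simp)
      · unfold fre at h3
        exact hnd.2.2.2 t (List.mem_of_mem_filter h3) t (by simp) rfl
      · have hn : ¬ (fre G c L i l m = [] ∨ c h = i ∨ c t = i) := by
          rintro (h4 | h4 | h4)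
          · rw [h4] at hxf
            simp at hxf
          · exact hcol x h h1 (hcx.trans h4.symm)
          · exact hcol x t h2 (hcx.trans h4.symm)
        rw [if_neg hn] at h3
        simp at h3
    obtain ⟨hy1, hy2⟩ := key y hy hxy
    obtain ⟨hz1, hz2⟩ := key z hz hxz
    refine Subtype.ext ?_
    change y = z
    rcases hy1 with rfl | rfl <;> rcases hz1 with rfl | rfl
    · rfl
    · exact (notboth hxy hxz hz2).elim
    · exact (notboth hxz hxy hy2).elim
    · rfl
  · rintro ⟨x, hx⟩ ⟨y, hy⟩ ⟨z, hz⟩ hxE hyE hzE hxy hxz
    have hxy : G.Adj x y := hxy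
    have hxz : G.Adj x z := hxz
    rw [not_not] at hxE hyE hzE
    obtain ⟨l1, hl1, hx1⟩ := hxE
    obtain ⟨l2, hl2, hx2⟩ := hyE
    obtain ⟨l3, hl3, hx3⟩ := hzE
    have e1 : l1 = l2 := by
      by_contra hne
      obtain ⟨L', hp'⟩ := perm_two hl1 hl2 hne
      exact end_nadj hL hp' (isEnd_of_mem hx1) (isEnd_of_mem hx2) hxy
    have e2 : l1 = l3 := by
      by_contra hne
      obtain ⟨L', hp'⟩ := perm_two hl1 hl3 hne
      exact end_nadj hL hp' (isEnd_of_mem hx1) (isEnd_of_mem hx3) hxz
    subst e1
    subst e2
    exact Subtype.ext (ends_three hx1 hx2 hx3 hxy.ne' hxz.ne')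

end Pool.Agent.Lib.MP_364230_h58
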