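import Pool.Agent.Lib.MP_364230_h58.Crit

/-!
# Claw-free graphs satisfy the criterion (MP_364230_co, helper58)
-/

set_option autoImplicit false
open Finset

namespace Pool.Agent.Lib.MP_364230_h58

variable {V : Type*} {G : SimpleGraph V}

/-- no vertex has three pairwise non-adjacent neighbours -/
def ClawFree (G : SimpleGraph V) : Prop :=
  ∀ v a b c : V, G.Adj v a → G.Adj v b → G.Adj v c → a ≠ b → a ≠ c → b ≠ c →
    G.Adj a b ∨ G.Adj a c ∨ G.Adj b c

/-- a largest subset without cores -/
theorem exists_max_nocore (G : SimpleGraph V) (B : Finset V) :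
    ∃ F ⊆ B, (∀ C ⊆ F, ¬ Core G C) ∧
      ∀ r ∈ B, r ∉ F → ∃ C, (∀ x ∈ C, x = r ∨ x ∈ F) ∧ r ∈ C ∧ Core G C := by
  classical
  obtain ⟨F, hF, hmax⟩ := Finset.exists_max_image
    (B.powerset.filter fun F => ∀ C ⊆ F, ¬ Core G C) Finset.card ⟨∅, by
      rw [mem_filter, mem_powerset]
      refine ⟨empty_subset _, fun C hC h => ?_⟩
      obtain ⟨x, hx⟩ := h.1
      exact absurd (hC hx) (notMem_empty x)⟩
  rw [mem_filter, mem_powerset] at hF
  refine ⟨F, hF.1, hF.2, fun r hr hrF => ?_⟩
  by_contra hcon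
  push Not at hcon
  have h1 : insert r F ∈ B.powerset.filter fun F => ∀ C ⊆ F, ¬ Core G C := by
    rw [mem_filter, mem_powerset]
    refine ⟨insert_subset hr hF.1, fun C hC hcore => ?_⟩
    have h2 : ∀ x ∈ C, x = r ∨ x ∈ F := fun x hx => mem_insert.1 (hC hx)
    by_cases h3 : r ∈ C
    · exact hcon C h2 h3 hcore
    · refine hF.2 C (fun x hx => ?_) hcore
      rcases h2 x hx with rfl | h4
      · exact absurd hx h3
      · exact h4
  have h2 := hmax _ h1
  rw [card_insert_of_notMem hrF] at h2
  omega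

theorem clawFree_big (h : ClawFree G) : BigForests G := by
  classical
  rintro B hB ⟨C⟩
  let col : V → Fin 2 := fun x => if h : x ∈ B then C ⟨x, h⟩ else 0
  have hcol : ∀ x ∈ B, ∀ y ∈ B, G.Adj x y → col x ≠ col y := by
    intro x hx y hy hxy
    have h2 := C.valid (v := ⟨x, hx⟩) (w := ⟨y, hy⟩) hxy
    simpa only [col, hx, hy, dif_pos] using h2
  have htri : ∀ v ∈ B, ∀ x ∈ B, ∀ y ∈ B, G.Adj v x → G.Adj v y → ¬ G.Adj x y := by
    intro v hv x hx y hy h1 h2 h3
    have e1 := hcol v hv x hx h1
    have e2 := hcol v hv y hy h2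
    have e3 := hcol x hx y hy h3
    revert e1 e2 e3
    generalize col v = p
    generalize col x = q
    generalize col y = r
    fin_cases p <;> fin_cases q <;> fin_cases r <;> simp
  have hdeg : ∀ v ∈ B, ∀ x ∈ B, ∀ y ∈ B, ∀ z ∈ B, G.Adj v x → G.Adj v y → G.Adj v z →
      x ≠ y → x ≠ z → y = z := by
    intro v hv x hx y hy z hz h1 h2 h3 hxy hxz
    by_contra hyz
    rcases h v x y z h1 h2 h3 hxy hxz hyz with h4 | h4 | h4
    · exact htri v hv x hx y hy h1 h2 h4
    · exact htri v hv x hx z hz h1 h3 h4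
    · exact htri v hv y hy z hz h2 h3 h4
  obtain ⟨F, hFB, hno, hmax⟩ := exists_max_nocore G B
  refine ⟨F, hFB, acyclic_of_no_core hno, ?_⟩
  have hcard : B.card = F.card + (B \ F).card := by
    rw [add_comm]
    exact (card_sdiff_add_card_eq_card hFB).symm
  -- it suffices to count the removed vertices
  suffices hs : 2 * (B \ F).card + 1 ≤ F.card by omega
  rcases (B \ F).eq_empty_or_nonempty with hemp | ⟨r0, hr0⟩
  · have h1 : 0 < B.card := card_pos.2 hB
    rw [hemp] at hcard ⊢
    simp only [card_empty] at hcard ⊢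
    omega
  · let N : V → Finset V := fun r => F.filter fun x => G.Adj r x
    -- the core through a removed vertex
    have hN : ∀ r ∈ B \ F, ∃ D, (∀ x ∈ D, x = r ∨ x ∈ F) ∧ Core G D ∧ 2 ≤ (N r).card ∧
        ∀ x ∈ N r, x ∈ D := by
      intro r hr
      rw [mem_sdiff] at hr
      obtain ⟨D, hD, hrD, hcore⟩ := hmax r hr.1 hr.2
      obtain ⟨x, hx, y, hy, hxy, h1, h2⟩ := hcore.2 r hrD
      have hxF : x ∈ F := (hD x hx).resolve_left h1.ne'
      have hyF : y ∈ F := (hD y hy).resolve_left h2.ne'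
      refine ⟨D, hD, hcore, ?_, ?_⟩
      · rw [← card_pair hxy]
        refine card_le_card ?_
        intro z hz
        rw [mem_insert, mem_singleton] at hz
        rcases hz with rfl | rfl
        · exact mem_filter.2 ⟨hxF, h1⟩
        · exact mem_filter.2 ⟨hyF, h2⟩
      · intro z hz
        rw [mem_filter] at hz
        by_cases hzx : z = x
        · rw [hzx]; exact hx
        · by_cases hzy : z = y
          · rw [hzy]; exact hy
          · exact absurd (hdeg r hr.1 z (hFB hz.1) x (hFB hxF) y (hFB hyF) hz.2 h1 h2 hzx hzy)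
              hxy
    -- each neighbour in `F` of a removed vertex has a neighbour in `F`
    have hnb : ∀ r ∈ B \ F, ∀ x ∈ N r, ∃ z ∈ F, G.Adj x z := by
      intro r hr x hx
      obtain ⟨D, hD, hcore, _, hND⟩ := hN r hr
      obtain ⟨y, hy, z, hz, hyz, h1, h2⟩ := hcore.2 x (hND x hx)
      rcases hD y hy with h3 | h3
      · rcases hD z hz with h4 | h4
        · exact absurd (h3.trans h4.symm) hyz
        · exact ⟨z, h4, h2⟩
      · exact ⟨y, h3, h1⟩
    have hdisj : ∀ r ∈ B \ F, ∀ r' ∈ B \ F, r ≠ r' → Disjoint (N r) (N r') := by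
      intro r hr r' hr' hne
      rw [disjoint_left]
      intro x hx hx'
      obtain ⟨z, hz, hxz⟩ := hnb r hr x hx
      rw [mem_filter] at hx hx'
      rw [mem_sdiff] at hr hr'
      have h1 := hdeg x (hFB hx.1) z (hFB hz) r hr.1 r' hr'.1 hxz hx.2.symm hx'.2.symm
        (fun h => hr.2 (h ▸ hz)) (fun h => hr'.2 (h ▸ hz))
      exact hne h1
    -- one more vertex
    obtain ⟨D0, _, _, hN0, _⟩ := hN r0 hr0
    obtain ⟨x, hx⟩ : (N r0).Nonempty := card_pos.1 (by omega)
    obtain ⟨z, hz, hxz⟩ := hnb r0 hr0 x hx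
    have hxF := (mem_filter.1 hx).1
    have hr0x := (mem_filter.1 hx).2
    have hr0B := (mem_sdiff.1 hr0).1
    have hr0F := (mem_sdiff.1 hr0).2
    have hzN : ∀ r ∈ B \ F, z ∉ N r := by
      intro r hr hzr
      obtain ⟨D, hD, hcore, _, hND⟩ := hN r hr
      have hzD := hND z hzr
      rw [mem_filter] at hzr
      have hrB := (mem_sdiff.1 hr).1
      have hrF := (mem_sdiff.1 hr).2
      by_cases hrr : r = r0
      · subst hrr
        exact htri r hr0B x (hFB hxF) z (hFB hz) hr0x hzr.2 hxz
      · -- the two neighbours of `z` are `x` and `r`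
        have hDB : ∀ y ∈ D, y ∈ B := by
          intro y hy
          rcases hD y hy with rfl | h4
          · exact hrB
          · exact hFB h4
        have hxD : x ∈ D := by
          obtain ⟨u, hu, w, hw, huw, h1, h2⟩ := hcore.2 z hzD
          by_contra hxD
          have e1 : u ≠ x := fun h => hxD (h ▸ hu)
          have e2 : w ≠ x := fun h => hxD (h ▸ hw)
          exact huw (hdeg z (hFB hz) x (hFB hxF) u (hDB u hu) w (hDB w hw) hxz.symm h1 h2
            e1.symm e2.symm)
        obtain ⟨u, hu, w, hw, huw, h1, h2⟩ := hcore.2 x hxD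
        have hr0D : r0 ∉ D := by
          intro h
          rcases hD r0 h with h3 | h3
          · exact hrr h3.symm
          · exact hr0F h3
        have e1 : u ≠ r0 := fun h => hr0D (h ▸ hu)
        have e2 : w ≠ r0 := fun h => hr0D (h ▸ hw)
        exact huw (hdeg x (hFB hxF) r0 hr0B u (hDB u hu) w (hDB w hw) hr0x.symm h1 h2
          e1.symm e2.symm)
    have hsub : insert z ((B \ F).biUnion N) ⊆ F := by
      intro y hy
      rw [mem_insert, mem_biUnion] at hy
      rcases hy with rfl | ⟨r, _, hy⟩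
      · exact hz
      · exact (mem_filter.1 hy).1
    have h1 := card_le_card hsub
    rw [card_insert_of_notMem (by
      rw [mem_biUnion]
      rintro ⟨r, hr, hzr⟩
      exact hzN r hr hzr), card_biUnion hdisj] at h1
    have h2 : ∑ r ∈ B \ F, 2 ≤ ∑ r ∈ B \ F, (N r).card := by
      refine sum_le_sum fun r hr => ?_
      obtain ⟨_, _, _, h3, _⟩ := hN r hr
      exact h3
    rw [sum_const, smul_eq_mul] at h2
    omega

end Pool.Agent.Lib.MP_364230_h58
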