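import Pool.Agent.Lib.MP_364230_h58.Cover

/-!
# Forests from path covers (MP_364230_co)

Two induced forests found from an optimal path cover, and the inequality.  (helper58)
-/

set_option autoImplicit false
open Finset

namespace Pool.Agent.Lib.MP_364230_h58

section acyclic

variable {W : Type*} {H : SimpleGraph W}

theorem acyclic_of_le_one (h : ∀ x y z, H.Adj x y → H.Adj x z → y = z) : H.IsAcyclic := by
  intro v c hc
  exact hc.snd_ne_penultimate
    (h v _ _ (c.adj_snd hc.not_nil) (c.adj_penultimate hc.not_nil).symm)

theorem acyclic_star (v : W) (h : ∀ x y, H.Adj x y → x = v ∨ y = v) : H.IsAcyclic := by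
  have key : ∀ (u : W) (c : H.Walk u u), c.IsCycle → u ≠ v → False := by
    intro u c hc hu
    have h1 := c.adj_snd hc.not_nil
    have h2 := (c.adj_penultimate hc.not_nil).symm
    have h3 : c.snd = v := (h _ _ h1).resolve_left hu
    have h4 : c.penultimate = v := (h _ _ h2).resolve_left hu
    exact hc.snd_ne_penultimate (h3.trans h4.symm)
  intro u c hc
  by_cases hu : u = v
  · classical
    have h1 := c.adj_snd hc.not_nil
    have h2 : c.snd ∈ c.support := c.getVert_mem_support 1
    exact key _ _ (hc.rotate h2) (fun h3 => h1.ne (hu.trans h3.symm))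
  · exact key _ _ hc hu

end acyclic

variable {V : Type*} {G : SimpleGraph V}

/-- the list of the end vertices -/
def ends : List V → List V
  | [] => []
  | [a] => [a]
  | a :: b :: t => [a, (b :: t).getLast (by simp)]

theorem ends_sublist (l : List V) : (ends l).Sublist l := by
  match l with
  | [] => exact List.Sublist.refl _
  | [a] => exact List.Sublist.refl _
  | a :: b :: t =>
    unfold ends
    exact List.Sublist.cons_cons a (List.singleton_sublist.2 (List.getLast_mem _))

theorem isEnd_of_mem {l : List V} {x : V} (h : x ∈ ends l) : IsEnd l x := by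
  match l, h with
  | [], h => simp [ends] at h
  | [a], h =>
    rw [ends, List.mem_singleton] at h
    exact Or.inl ⟨[], by rw [h]⟩
  | a :: b :: t, h =>
    rw [ends, List.mem_cons, List.mem_singleton] at h
    rcases h with rfl | rfl
    · exact Or.inl ⟨_, rfl⟩
    · right
      refine ⟨a :: (b :: t).dropLast, ?_⟩
      rw [List.cons_append, List.dropLast_concat_getLast]

theorem ends_three {l : List V} {x y z : V} (hx : x ∈ ends l) (hy : y ∈ ends l) (hz : z ∈ ends l)
    (hxy : y ≠ x) (hxz : z ≠ x) : y = z := by
  match l, hx, hy, hz with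
  | [], hx, _, _ => simp [ends] at hx
  | [a], hx, hy, _ =>
    rw [ends, List.mem_singleton] at hx hy
    exact absurd (hy.trans hx.symm) hxy
  | a :: b :: t, hx, hy, hz =>
    rw [ends, List.mem_cons, List.mem_singleton] at hx hy hz
    rcases hx with rfl | rfl <;> rcases hy with rfl | rfl <;> rcases hz with rfl | rfl <;>
      first | rfl | exact absurd rfl hxy | exact absurd rfl hxz

theorem ends_length_two {l : List V} (h : 2 ≤ l.length) : (ends l).length = 2 := by
  match l, h with
  | [], h => simp at h
  | [a], h => simp at h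
  | a :: b :: t, _ => rfl

theorem flatMap_sublist (φ : List V → List V) (h : ∀ l, (φ l).Sublist l) (L : List (List V)) :
    (L.flatMap φ).Sublist L.flatten := by
  induction L with
  | nil => exact List.Sublist.refl _
  | cons l L ih =>
    rw [List.flatMap_cons, List.flatten_cons]
    exact (h l).append ih

theorem card_flatMap [DecidableEq V] (φ : List V → List V) (h : ∀ l, (φ l).Sublist l)
    {L : List (List V)} (hL : L.flatten.Nodup) :
    (L.flatMap φ).toFinset.card = (L.flatMap φ).length :=
  List.toFinset_card_of_nodup (hL.sublist (flatMap_sublist φ h L))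

/-- the neighbours of the reachable vertices -/
def Mid (G : SimpleGraph V) (L : List (List V)) (m : V) : Prop := ∃ s, Rch G L s ∧ G.Adj s m

/-- the one-vertex paths and the three-vertex paths with reachable neighbour in the middle -/
def Pt (G : SimpleGraph V) (L : List (List V)) (l : List V) : Prop :=
  (∃ s, l = [s]) ∨ ∃ a m c, l = [a, m, c] ∧ Mid G L m

open Classical in
/-- their ends -/
noncomputable def fS (G : SimpleGraph V) (L : List (List V)) (l : List V) : List V :=
  if Pt G L l then ends l else []

open Classical in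
/-- their vertices -/
noncomputable def fW (G : SimpleGraph V) (L : List (List V)) (l : List V) : List V :=
  if Pt G L l then l else []

theorem fS_sublist (L : List (List V)) (l : List V) : (fS G L l).Sublist l := by
  unfold fS
  split_ifs
  · exact ends_sublist l
  · exact List.nil_sublist _

theorem fW_sublist (L : List (List V)) (l : List V) : (fW G L l).Sublist l := by
  unfold fW
  split_ifs
  · exact List.Sublist.refl _
  · exact List.nil_sublist _

theorem count_ineq (L : List (List V)) : ∀ L' : List (List V), (∀ l ∈ L', l ≠ []) →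
    2 * L'.length + 2 * (L'.flatMap (fW G L)).length ≤
      4 * (L'.flatMap (fS G L)).length + (L'.flatMap ends).length := by
  intro L'
  induction L' with
  | nil => intro _; simp
  | cons l t ih =>
    intro h
    have h1 := ih fun l hl => h l (by simp [hl])
    have h2 : 2 + 2 * (fW G L l).length ≤ 4 * (fS G L l).length + (ends l).length := by
      by_cases hP : Pt G L l
      · have e1 : fW G L l = l := by unfold fW; rw [if_pos hP]
        have e2 : fS G L l = ends l := by unfold fS; rw [if_pos hP]
        rw [e1, e2]
        rcases hP with ⟨s, rfl⟩ | ⟨a, m, c, rfl, _⟩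
        · simp [ends]
        · simp [ends]
      · have e1 : fW G L l = [] := by unfold fW; rw [if_neg hP]
        have e2 : fS G L l = [] := by unfold fS; rw [if_neg hP]
        have h3 : 2 ≤ l.length := by
          have h4 : l ≠ [] := h l (by simp)
          have h5 : l.length ≠ 0 := fun h0 => h4 (List.length_eq_zero_iff.1 h0)
          have h6 : l.length ≠ 1 := by
            intro h1
            obtain ⟨s, rfl⟩ := List.length_eq_one_iff.1 h1
            exact hP (Or.inl ⟨s, rfl⟩)
          omega
        rw [e1, e2, ends_length_two h3]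
        simp
    simp only [List.flatMap_cons, List.length_append, List.length_cons]
    omega

/-- the forest built from a large independent set -/
theorem core [Fintype V] (G : SimpleGraph V) (he : ∃ u v, G.Adj u v) (f : ℕ)
    (hf : ∀ S : Finset V, (G.induce (S : Set V)).IsAcyclic → S.card ≤ f)
    {L : List (List V)} (hL : Opt G L) :
    ∃ a : ℕ, (L.flatMap (fS G L)).length + a + 1 ≤ f ∧
      ∀ B : Finset V, (G.induce (B : Set V)).Colorable 2 →
        B.card ≤ (L.flatMap (fW G L)).length + 2 * a := by
  classical
  have hnd := hL.cov.2.1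
  set S := (L.flatMap (fS G L)).toFinset with hS
  set W := (L.flatMap (fW G L)).toFinset with hW
  have cS : S.card = (L.flatMap (fS G L)).length := card_flatMap _ (fS_sublist L) hnd
  have cW : W.card = (L.flatMap (fW G L)).length := card_flatMap _ (fW_sublist L) hnd
  -- the vertices of `S` are reachable
  have hSr : ∀ x ∈ S, Rch G L x := by
    intro x hx
    rw [hS, List.mem_toFinset, List.mem_flatMap] at hx
    obtain ⟨l, hl, hx⟩ := hx
    unfold fS at hx
    split_ifs at hx with hP
    · rcases hP with ⟨s, rfl⟩ | ⟨a, m, c, rfl, s, hs, hsm⟩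
      · simp only [ends, List.mem_singleton] at hx
        subst hx
        exact Rch.base hl
      · have h1 := rch_ends hs a m c hsm hl
        simp only [ends, List.mem_cons, List.getLast_cons_cons, List.getLast_singleton,
          List.not_mem_nil, or_false] at hx
        rcases hx with rfl | rfl
        · exact h1.1
        · exact h1.2
    · simp at hx
  have hSW : S ⊆ W := by
    intro x hx
    rw [hS, List.mem_toFinset, List.mem_flatMap] at hx
    obtain ⟨l, hl, hx⟩ := hx
    rw [hW, List.mem_toFinset, List.mem_flatMap]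
    refine ⟨l, hl, ?_⟩
    unfold fS at hx
    unfold fW
    split_ifs at hx ⊢ with hP
    · exact (ends_sublist l).subset hx
    · exact hx
  have hSn : ∀ x ∈ S, ∀ y, G.Adj x y → y ∈ W ∧ y ∉ S := by
    intro x hx y hxy
    have h1 := hSr x hx
    obtain ⟨a, c, hac⟩ := rch_nbr h1 hL y hxy
    constructor
    · rw [hW, List.mem_toFinset, List.mem_flatMap]
      refine ⟨[a, y, c], hac, ?_⟩
      have hP : Pt G L [a, y, c] := Or.inr ⟨a, y, c, rfl, x, h1, hxy⟩
      unfold fW
      rw [if_pos hP]
      simp
    · intro hy
      exact rch_not_cen (hSr y hy) hL ⟨a, c, hac⟩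
  -- a maximum independent set outside `W`
  obtain ⟨A, hA, hAmax⟩ := Finset.exists_max_image
    ((univ : Finset (Finset V)).filter fun A => Disjoint A W ∧ ∀ x ∈ A, ∀ y ∈ A, ¬ G.Adj x y)
    Finset.card ⟨∅, by simp⟩
  simp only [mem_filter, mem_univ, true_and] at hA hAmax
  obtain ⟨hAW, hAi⟩ := hA
  have hind : ∀ x ∈ S ∪ A, ∀ y ∈ S ∪ A, ¬ G.Adj x y := by
    have hSA : ∀ x ∈ S, ∀ y ∈ S ∪ A, ¬ G.Adj x y := by
      intro x hx y hy hxy
      obtain ⟨h1, h2⟩ := hSn x hx y hxy
      rcases mem_union.1 hy with hy | hy
      · exact h2 hy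
      · exact disjoint_left.1 hAW hy h1
    intro x hx y hy hxy
    rcases mem_union.1 hx with hx | hx
    · exact hSA x hx y hy hxy
    · rcases mem_union.1 hy with hy | hy
      · exact hSA y hy x (mem_union_right _ hx) hxy.symm
      · exact hAi x hx y hy hxy
  refine ⟨A.card, ?_, ?_⟩
  · rw [← cS]
    obtain ⟨u, v, huv⟩ := he
    obtain ⟨w, hw⟩ : ∃ w, w ∉ S ∪ A := by
      by_contra hall
      push Not at hall
      exact hind u (hall u) v (hall v) huv
    have hdis : Disjoint S A := (hAW.mono_right hSW).symm
    have h1 : (insert w (S ∪ A)).card = S.card + A.card + 1 := by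
      rw [card_insert_of_notMem hw, card_union_of_disjoint hdis]
    rw [← h1]
    refine hf _ (acyclic_star ⟨w, by simp⟩ ?_)
    rintro ⟨x, hx⟩ ⟨y, hy⟩ hxy
    have hxy : G.Adj x y := hxy
    have hx : x ∈ insert w (S ∪ A) := hx
    have hy : y ∈ insert w (S ∪ A) := hy
    rcases mem_insert.1 hx with rfl | hx
    · exact Or.inl rfl
    · rcases mem_insert.1 hy with rfl | hy
      · exact Or.inr rfl
      · exact absurd hxy (hind x hx y hy)
  · intro B hB
    rw [← cW]
    obtain ⟨C⟩ := hB
    let col : V → Fin 2 := fun x => if h : x ∈ B then C ⟨x, h⟩ else 0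
    have h1 : ∀ i : Fin 2, ((B \ W).filter fun x => col x = i).card ≤ A.card := by
      intro i
      refine hAmax _ ⟨?_, ?_⟩
      · refine Disjoint.mono_left (filter_subset _ _) ?_
        exact sdiff_disjoint
      · intro x hx y hy hxy
        simp only [mem_filter, mem_sdiff] at hx hy
        have h2 := C.valid (v := ⟨x, hx.1.1⟩) (w := ⟨y, hy.1.1⟩) hxy
        apply h2
        have h3 := hx.2
        have h4 := hy.2
        simp only [col, hx.1.1, hy.1.1, dif_pos] at h3 h4
        exact h3.trans h4.symm
    have h2 : (B \ W).card = ∑ i : Fin 2, ((B \ W).filter fun x => col x = i).card :=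
      card_eq_sum_card_fiberwise fun _ _ => mem_univ _
    have h3 : (B \ W).card ≤ 2 * A.card := by
      rw [h2, Fin.sum_univ_two]
      have := h1 0
      have := h1 1
      omega
    have h4 : B.card ≤ W.card + (B \ W).card := by
      have h5 : B ⊆ W ∪ (B \ W) := by
        intro x hx
        by_cases hxW : x ∈ W
        · exact mem_union_left _ hxW
        · exact mem_union_right _ (mem_sdiff.2 ⟨hx, hxW⟩)
      exact (card_le_card h5).trans (card_union_le _ _)
    omega

/-- **The inequality for all graphs.** -/
theorem main [Fintype V] (G : SimpleGraph V) (he : ∃ u v, G.Adj u v) (p b f : ℕ)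
    (hp : ∀ L, IsPathCover G L → p ≤ L.length)
    (hb : ∃ S : Finset V, S.card = b ∧ (G.induce (S : Set V)).Colorable 2)
    (hf : ∀ S : Finset V, (G.induce (S : Set V)).IsAcyclic → S.card ≤ f) :
    2 * (p + b + 2) ≤ 5 * f := by
  classical
  obtain ⟨L, hL⟩ := exists_opt (G := G)
  have hpL := hp L hL.cov
  have hnd := hL.cov.2.1
  obtain ⟨a, ha1, ha2⟩ := core G he f hf hL
  obtain ⟨B, hBc, hB⟩ := hb
  have hBle := ha2 B hB
  set E := (L.flatMap ends).toFinset with hE
  have cE : E.card = (L.flatMap ends).length := card_flatMap _ ends_sublist hnd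
  have hcount := count_ineq (G := G) L L (fun l hl => (hL.cov.1 l hl).1)
  have hfE : E.card ≤ f := by
    refine hf E (acyclic_of_le_one ?_)
    rintro ⟨x, hx⟩ ⟨y, hy⟩ ⟨z, hz⟩ hxy hxz
    have hxy : G.Adj x y := hxy
    have hxz : G.Adj x z := hxz
    have hx : x ∈ E := hx
    have hy : y ∈ E := hy
    have hz : z ∈ E := hz
    rw [hE, List.mem_toFinset, List.mem_flatMap] at hx hy hz
    obtain ⟨l1, hl1, hx1⟩ := hx
    obtain ⟨l2, hl2, hx2⟩ := hy
    obtain ⟨l3, hl3, hx3⟩ := hz
    have e1 : l1 = l2 := by
      by_contra hne
      obtain ⟨L', hp'⟩ := perm_two hl1 hl2 hne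
      exact end_nadj hL hp' (isEnd_of_mem hx1) (isEnd_of_mem hx2) hxy
    have e2 : l1 = l3 := by
      by_contra hne
      obtain ⟨L', hp'⟩ := perm_two hl1 hl3 hne
      exact end_nadj hL hp' (isEnd_of_mem hx1) (isEnd_of_mem hx3) hxz
    subst e1
    subst e2
    exact Subtype.ext (ends_three hx1 hx2 hx3 hxy.ne' hxz.ne')
  omega

end Pool.Agent.Lib.MP_364230_h58
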