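import Mathlib

/-!
# Path covers with few one-vertex paths (MP_364230_co)

Path covers of a finite graph by lists of vertices; covers with the least number of paths and,
among those, the least number of one-vertex paths; the exchange of a one-vertex path with an end
of a three-vertex path.  (helper58)
-/

set_option autoImplicit false
open Finset

namespace Pool.Agent.Lib.MP_364230_h58

variable {V : Type*} {G : SimpleGraph V}

/-- `L` lists vertex-disjoint paths of `G` (each is the list of its vertices in order) which
together cover all the vertices. -/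
def IsPathCover (G : SimpleGraph V) (L : List (List V)) : Prop :=
  (∀ l ∈ L, l ≠ [] ∧ l.IsChain G.Adj) ∧ L.flatten.Nodup ∧ ∀ v : V, v ∈ L.flatten

theorem cov_congr {L L' : List (List V)} (h : IsPathCover G L)
    (hc : ∀ l ∈ L', l ≠ [] ∧ l.IsChain G.Adj) (hp : L'.flatten.Perm L.flatten) :
    IsPathCover G L' :=
  ⟨hc, hp.nodup_iff.2 h.2.1, fun v => hp.mem_iff.2 (h.2.2 v)⟩

theorem cov_perm {L L' : List (List V)} (h : IsPathCover G L) (hp : L'.Perm L) :
    IsPathCover G L' :=
  cov_congr h (fun l hl => h.1 l (hp.mem_iff.1 hl)) hp.flatten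

/-- the number of one-vertex paths -/
def sg (L : List (List V)) : ℕ := L.countP (fun l => decide (l.length = 1))

theorem sg_perm {L L' : List (List V)} (h : L.Perm L') : sg L = sg L' := h.countP_eq _

theorem sg_cons (l : List V) (L : List (List V)) :
    sg (l :: L) = sg L + if l.length = 1 then 1 else 0 := by
  unfold sg
  rw [List.countP_cons]
  simp

/-- a cover with the least number of paths and then of one-vertex paths -/
structure Opt (G : SimpleGraph V) (L : List (List V)) : Prop where
  cov : IsPathCover G L
  len : ∀ L', IsPathCover G L' → L.length ≤ L'.length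
  sng : ∀ L', IsPathCover G L' → L'.length = L.length → sg L ≤ sg L'

theorem exists_cov [Fintype V] : ∃ L, IsPathCover G L := by
  refine ⟨(univ : Finset V).toList.map (fun v => [v]), ?_, ?_, ?_⟩
  · intro l hl
    rw [List.mem_map] at hl
    obtain ⟨v, _, rfl⟩ := hl
    exact ⟨by simp, List.isChain_singleton _⟩
  · have : ((univ : Finset V).toList.map (fun v => [v])).flatten = (univ : Finset V).toList := by
      induction (univ : Finset V).toList with
      | nil => rfl
      | cons a t ih => simp [ih]
    rw [this]
    exact Finset.nodup_toList _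
  · intro v
    simp

theorem exists_opt [Fintype V] : ∃ L, Opt G L := by
  classical
  have h1 : ∃ n, ∃ L, IsPathCover G L ∧ L.length = n := by
    obtain ⟨L, hL⟩ := exists_cov (G := G)
    exact ⟨_, L, hL, rfl⟩
  have h2 : ∃ k, ∃ L, IsPathCover G L ∧ L.length = Nat.find h1 ∧ sg L = k := by
    obtain ⟨L, hL, hn⟩ := Nat.find_spec h1
    exact ⟨_, L, hL, hn, rfl⟩
  obtain ⟨L, hL, hn, hk⟩ := Nat.find_spec h2
  refine ⟨L, hL, fun L' hL' => ?_, fun L' hL' hl => ?_⟩
  · rw [hn]
    exact Nat.find_min' h1 ⟨L', hL', rfl⟩
  · rw [hk]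
    exact Nat.find_min' h2 ⟨L', hL', hl.trans hn, rfl⟩

theorem opt_of {L L' : List (List V)} (h : Opt G L) (h' : IsPathCover G L')
    (hl : L'.length = L.length) (hs : sg L' = sg L) : Opt G L' :=
  ⟨h', fun M hM => hl.trans_le (h.len M hM), fun M hM hMl => by
    rw [hs]
    exact h.sng M hM (hMl.trans hl)⟩

theorem chain_reverse {l : List V} (h : l.IsChain G.Adj) : l.reverse.IsChain G.Adj := by
  rw [List.isChain_reverse]
  exact h.imp fun a b hab => hab.symm

/-- `x` is an end vertex of the path `l` -/
def IsEnd (l : List V) (x : V) : Prop := (∃ a, l = x :: a) ∨ (∃ a, l = a ++ [x])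

theorem end_last {l : List V} {x : V} (h : IsEnd l x) (hc : l.IsChain G.Adj) :
    ∃ a : List V, (a ++ [x]).IsChain G.Adj ∧ (a ++ [x]).Perm l := by
  rcases h with ⟨a, rfl⟩ | ⟨a, rfl⟩
  · refine ⟨a.reverse, ?_, ?_⟩
    · have := chain_reverse hc
      rwa [List.reverse_cons] at this
    · have := List.reverse_perm (x :: a)
      rwa [List.reverse_cons] at this
  · exact ⟨a, hc, List.Perm.refl _⟩

theorem end_head {l : List V} {x : V} (h : IsEnd l x) (hc : l.IsChain G.Adj) :
    ∃ a : List V, (x :: a).IsChain G.Adj ∧ (x :: a).Perm l := by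
  rcases h with ⟨a, rfl⟩ | ⟨a, rfl⟩
  · exact ⟨a, hc, List.Perm.refl _⟩
  · refine ⟨a.reverse, ?_, ?_⟩
    · have := chain_reverse hc
      rwa [List.reverse_append] at this
    · have := List.reverse_perm (a ++ [x])
      rwa [List.reverse_append] at this

theorem chain_join {a c : List V} {x y : V} (h1 : (a ++ [x]).IsChain G.Adj)
    (h2 : (y :: c).IsChain G.Adj) (h : G.Adj x y) : ((a ++ [x]) ++ (y :: c)).IsChain G.Adj := by
  rw [List.isChain_append]
  refine ⟨h1, h2, ?_⟩
  intro u hu v hv
  simp only [List.getLast?_append, List.getLast?_singleton, List.head?_cons] at hu hv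
  simp at hu hv
  subst hu
  subst hv
  exact h

/-- end vertices of different paths of a minimum cover are not adjacent -/
theorem end_nadj_min {L L' : List (List V)} (hcv : IsPathCover G L)
    (hmin : ∀ M, IsPathCover G M → L.length ≤ M.length) {l1 l2 : List V}
    (hp : L.Perm (l1 :: l2 :: L')) {x y : V} (hx : IsEnd l1 x) (hy : IsEnd l2 y) :
    ¬ G.Adj x y := by
  intro hxy
  have hcov := cov_perm hcv hp.symm
  have hc1 : l1.IsChain G.Adj := (hcov.1 l1 (by simp)).2
  have hc2 : l2.IsChain G.Adj := (hcov.1 l2 (by simp)).2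
  obtain ⟨a, ha, hap⟩ := end_last hx hc1
  obtain ⟨c, hc, hcp⟩ := end_head hy hc2
  have hnew : IsPathCover G (((a ++ [x]) ++ (y :: c)) :: L') := by
    refine cov_congr hcov ?_ ?_
    · intro l hl
      rw [List.mem_cons] at hl
      rcases hl with rfl | hl
      · exact ⟨by simp, chain_join ha hc hxy⟩
      · exact hcov.1 l (by simp [hl])
    · simp only [List.flatten_cons]
      rw [← List.append_assoc]
      exact (hap.append hcp).append_right _
  have h1 := hmin _ hnew
  have h2 := hp.length_eq
  simp only [List.length_cons] at h1 h2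
  omega

/-- end vertices of different paths are not adjacent -/
theorem end_nadj {L L' : List (List V)} (h : Opt G L) {l1 l2 : List V}
    (hp : L.Perm (l1 :: l2 :: L')) {x y : V} (hx : IsEnd l1 x) (hy : IsEnd l2 y) :
    ¬ G.Adj x y :=
  end_nadj_min h.cov h.len hp hx hy

/-- a neighbour of a one-vertex path is the middle of a three-vertex path -/
theorem single_nbr {L L' : List (List V)} (h : Opt G L) {o v : V} {a c : List V}
    (hp : L.Perm ([o] :: (a ++ v :: c) :: L')) (hov : G.Adj o v) :
    a.length = 1 ∧ c.length = 1 := by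
  have hcov := cov_perm h.cov hp.symm
  have hch : (a ++ v :: c).IsChain G.Adj := (hcov.1 (a ++ v :: c) (by simp)).2
  have ho : IsEnd [o] o := Or.inl ⟨[], rfl⟩
  have ha : a ≠ [] := by
    rintro rfl
    exact end_nadj h hp ho (Or.inl ⟨c, rfl⟩) hov
  have hc : c ≠ [] := by
    rintro rfl
    exact end_nadj h hp ho (Or.inr ⟨a, rfl⟩) hov
  have hlen := hp.length_eq
  have hsg := sg_perm hp
  rw [List.isChain_split] at hch
  have ha0 : 0 < a.length := List.length_pos_of_ne_nil ha
  have hc0 : 0 < c.length := List.length_pos_of_ne_nil hc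
  have hca : a.IsChain G.Adj := by
    have := hch.1
    rw [List.isChain_append] at this
    exact this.1
  have hcc : c.IsChain G.Adj := by
    have := hch.2
    rw [List.isChain_cons] at this
    exact this.2
  rw [sg_cons, sg_cons] at hsg
  constructor
  · by_contra hne
    have hnew : IsPathCover G ((o :: v :: c) :: a :: L') := by
      refine cov_congr hcov ?_ ?_
      · intro l hl
        rw [List.mem_cons, List.mem_cons] at hl
        rcases hl with rfl | rfl | hl
        · refine ⟨by simp, ?_⟩
          rw [List.isChain_cons_cons]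
          exact ⟨hov, hch.2⟩
        · exact ⟨ha, hca⟩
        · exact hcov.1 l (by simp [hl])
      · classical
        rw [List.perm_iff_count]
        intro w
        simp only [List.flatten_cons, List.count_append, List.count_cons, List.count_nil]
        omega
    have h1 := h.sng _ hnew (by simp [hlen])
    rw [sg_cons, sg_cons] at h1
    simp only [List.length_cons, List.length_append, List.length_nil] at h1 hsg
    revert h1 hsg
    split_ifs <;> intro h1 hsg <;> omega
  · by_contra hne
    have hnew : IsPathCover G (((a ++ [v]) ++ [o]) :: c :: L') := by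
      refine cov_congr hcov ?_ ?_
      · intro l hl
        rw [List.mem_cons, List.mem_cons] at hl
        rcases hl with rfl | rfl | hl
        · exact ⟨by simp, chain_join hch.1 (List.isChain_singleton _) hov.symm⟩
        · exact ⟨hc, hcc⟩
        · exact hcov.1 l (by simp [hl])
      · classical
        rw [List.perm_iff_count]
        intro w
        simp only [List.flatten_cons, List.count_append, List.count_cons, List.count_nil]
        omega
    have h1 := h.sng _ hnew (by simp [hlen])
    rw [sg_cons, sg_cons] at h1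
    simp only [List.length_cons, List.length_append, List.length_nil] at h1 hsg
    revert h1 hsg
    split_ifs <;> intro h1 hsg <;> omega

/-- the exchange keeps the cover optimal -/
theorem opt_exchange {L L' : List (List V)} (h : Opt G L) {o a m c : V}
    (hp : L.Perm ([o] :: [a, m, c] :: L')) (hom : G.Adj o m) :
    Opt G ([a] :: [o, m, c] :: L') := by
  have hcov := cov_perm h.cov hp.symm
  have hch : [a, m, c].IsChain G.Adj := (hcov.1 [a, m, c] (by simp)).2
  have hlen := hp.length_eq
  have hsg := sg_perm hp
  rw [sg_cons, sg_cons] at hsg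
  simp only [List.isChain_cons_cons, List.isChain_singleton, and_true] at hch
  refine opt_of h (cov_congr hcov ?_ ?_) (by simp [hlen]) ?_
  · intro l hl
    rw [List.mem_cons, List.mem_cons] at hl
    rcases hl with rfl | rfl | hl
    · exact ⟨by simp, List.isChain_singleton _⟩
    · refine ⟨by simp, ?_⟩
      simp only [List.isChain_cons_cons, List.isChain_singleton, and_true]
      exact ⟨hom, hch.2⟩
    · exact hcov.1 l (by simp [hl])
  · classical
    rw [List.perm_iff_count]
    intro w
    simp only [List.flatten_cons, List.count_append, List.count_cons, List.count_nil]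
    omega
  · rw [sg_cons, sg_cons, hsg]
    simp

theorem opt_exchange' {L L' : List (List V)} (h : Opt G L) {o a m c : V}
    (hp : L.Perm ([o] :: [a, m, c] :: L')) (hom : G.Adj o m) :
    Opt G ([c] :: [a, m, o] :: L') := by
  have hcov := cov_perm h.cov hp.symm
  have hch : [a, m, c].IsChain G.Adj := (hcov.1 [a, m, c] (by simp)).2
  have hlen := hp.length_eq
  have hsg := sg_perm hp
  rw [sg_cons, sg_cons] at hsg
  simp only [List.isChain_cons_cons, List.isChain_singleton, and_true] at hch
  refine opt_of h (cov_congr hcov ?_ ?_) (by simp [hlen]) ?_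
  · intro l hl
    rw [List.mem_cons, List.mem_cons] at hl
    rcases hl with rfl | rfl | hl
    · exact ⟨by simp, List.isChain_singleton _⟩
    · refine ⟨by simp, ?_⟩
      simp only [List.isChain_cons_cons, List.isChain_singleton, and_true]
      exact ⟨hch.1, hom.symm⟩
    · exact hcov.1 l (by simp [hl])
  · classical
    rw [List.perm_iff_count]
    intro w
    simp only [List.flatten_cons, List.count_append, List.count_cons, List.count_nil]
    omega
  · rw [sg_cons, sg_cons, hsg]
    simp

/-- the vertices which become one-vertex paths after some exchanges -/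
inductive Rch (G : SimpleGraph V) : List (List V) → V → Prop
  | base {L : List (List V)} {s : V} : [s] ∈ L → Rch G L s
  | left {L L' : List (List V)} {o a m c s : V} : L.Perm ([o] :: [a, m, c] :: L') → G.Adj o m →
      Rch G ([a] :: [o, m, c] :: L') s → Rch G L s
  | right {L L' : List (List V)} {o a m c s : V} : L.Perm ([o] :: [a, m, c] :: L') → G.Adj o m →
      Rch G ([c] :: [a, m, o] :: L') s → Rch G L s

/-- `m` is the middle of a three-vertex path of `L` -/
def Cen (L : List (List V)) (m : V) : Prop := ∃ a c, [a, m, c] ∈ L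

theorem cen_left {L L' : List (List V)} {o a m c : V} (hp : L.Perm ([o] :: [a, m, c] :: L'))
    (x : V) : Cen ([a] :: [o, m, c] :: L') x ↔ Cen L x := by
  unfold Cen
  constructor
  · rintro ⟨u, w, hu⟩
    simp only [List.mem_cons, List.cons.injEq, reduceCtorEq, and_false, false_or, and_true] at hu
    rcases hu with ⟨rfl, rfl, rfl⟩ | hu
    · exact ⟨a, w, hp.mem_iff.2 (by simp)⟩
    · exact ⟨u, w, hp.mem_iff.2 (by simp [hu])⟩
  · rintro ⟨u, w, hu⟩
    have hu := hp.mem_iff.1 hu
    simp only [List.mem_cons, List.cons.injEq, reduceCtorEq, and_false, false_or, and_true] at hu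
    rcases hu with ⟨rfl, rfl, rfl⟩ | hu
    · exact ⟨o, w, by simp⟩
    · exact ⟨u, w, by simp [hu]⟩

theorem cen_right {L L' : List (List V)} {o a m c : V} (hp : L.Perm ([o] :: [a, m, c] :: L'))
    (x : V) : Cen ([c] :: [a, m, o] :: L') x ↔ Cen L x := by
  unfold Cen
  constructor
  · rintro ⟨u, w, hu⟩
    simp only [List.mem_cons, List.cons.injEq, reduceCtorEq, and_false, false_or, and_true] at hu
    rcases hu with ⟨rfl, rfl, rfl⟩ | hu
    · exact ⟨u, c, hp.mem_iff.2 (by simp)⟩
    · exact ⟨u, w, hp.mem_iff.2 (by simp [hu])⟩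
  · rintro ⟨u, w, hu⟩
    have hu := hp.mem_iff.1 hu
    simp only [List.mem_cons, List.cons.injEq, reduceCtorEq, and_false, false_or, and_true] at hu
    rcases hu with ⟨rfl, rfl, rfl⟩ | hu
    · exact ⟨u, o, by simp⟩
    · exact ⟨u, w, by simp [hu]⟩

/-- two different members can be brought to the front -/
theorem perm_two {L : List (List V)} {l1 l2 : List V} (h1 : l1 ∈ L) (h2 : l2 ∈ L)
    (hne : l1 ≠ l2) : ∃ L', L.Perm (l1 :: l2 :: L') := by
  classical
  have h3 : l2 ∈ L.erase l1 := (List.mem_erase_of_ne hne.symm).2 h2
  exact ⟨(L.erase l1).erase l2, (List.perm_cons_erase h1).trans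
    ((List.perm_cons_erase h3).cons l1)⟩

theorem mem_two {L : List (List V)} (h : L.flatten.Nodup) {l1 l2 : List V} (h1 : l1 ∈ L)
    (h2 : l2 ∈ L) {x : V} (hx1 : x ∈ l1) (hx2 : x ∈ l2) : l1 = l2 := by
  by_contra hne
  obtain ⟨L', hp⟩ := perm_two h1 h2 hne
  have h3 := (hp.flatten.nodup_iff).1 h
  rw [List.flatten_cons, List.flatten_cons, List.nodup_append] at h3
  exact h3.2.2 x hx1 x (by simp [hx2]) rfl

theorem rch_nbr {L : List (List V)} {s : V} (h : Rch G L s) :
    Opt G L → ∀ m, G.Adj s m → Cen L m := by
  induction h with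
  | base hs =>
    rename_i L s
    intro hL m hm
    obtain ⟨l, hl, hml⟩ := List.mem_flatten.1 (hL.cov.2.2 m)
    have hne : [s] ≠ l := by
      rintro rfl
      rw [List.mem_singleton] at hml
      exact hm.ne hml.symm
    obtain ⟨L', hp⟩ := perm_two hs hl hne
    obtain ⟨a, c, rfl⟩ := List.append_of_mem hml
    obtain ⟨ha, hc⟩ := single_nbr hL hp hm
    obtain ⟨a0, rfl⟩ := List.length_eq_one_iff.1 ha
    obtain ⟨c0, rfl⟩ := List.length_eq_one_iff.1 hc
    exact ⟨a0, c0, hl⟩
  | left hp hom _ ih =>
    intro hL m hm
    exact (cen_left hp m).1 (ih (opt_exchange hL hp hom) m hm)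
  | right hp hom _ ih =>
    intro hL m hm
    exact (cen_right hp m).1 (ih (opt_exchange' hL hp hom) m hm)

theorem rch_not_cen {L : List (List V)} {s : V} (h : Rch G L s) : Opt G L → ¬ Cen L s := by
  induction h with
  | base hs =>
    rename_i L s
    rintro hL ⟨a, c, hac⟩
    have := mem_two hL.cov.2.1 hs hac (x := s) (by simp) (by simp)
    simp at this
  | left hp hom _ ih =>
    intro hL hc
    exact ih (opt_exchange hL hp hom) ((cen_left hp _).2 hc)
  | right hp hom _ ih =>
    intro hL hc
    exact ih (opt_exchange' hL hp hom) ((cen_right hp _).2 hc)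

theorem rch_ends {L : List (List V)} {s : V} (h : Rch G L s) :
    ∀ a m c, G.Adj s m → [a, m, c] ∈ L → Rch G L a ∧ Rch G L c := by
  induction h with
  | base hs =>
    rename_i L s
    intro a m c hm hac
    obtain ⟨L', hp⟩ := perm_two hs hac (by simp)
    exact ⟨Rch.left hp hm (Rch.base (by simp)), Rch.right hp hm (Rch.base (by simp))⟩
  | left hp hom _ ih =>
    rename_i L L' o a' m' c' s _
    intro a m c hm hac
    have h1 := hp.mem_iff.1 hac
    simp only [List.mem_cons, List.cons.injEq, reduceCtorEq, and_false, false_or, and_true] at h1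
    rcases h1 with ⟨rfl, rfl, rfl⟩ | h1
    · exact ⟨Rch.left hp hom (Rch.base (by simp)), Rch.right hp hom (Rch.base (by simp))⟩
    · have h2 := ih a m c hm (by simp [h1])
      exact ⟨Rch.left hp hom h2.1, Rch.left hp hom h2.2⟩
  | right hp hom _ ih =>
    rename_i L L' o a' m' c' s _
    intro a m c hm hac
    have h1 := hp.mem_iff.1 hac
    simp only [List.mem_cons, List.cons.injEq, reduceCtorEq, and_false, false_or, and_true] at h1
    rcases h1 with ⟨rfl, rfl, rfl⟩ | h1
    · exact ⟨Rch.left hp hom (Rch.base (by simp)), Rch.right hp hom (Rch.base (by simp))⟩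
    · have h2 := ih a m c hm (by simp [h1])
      exact ⟨Rch.right hp hom h2.1, Rch.right hp hom h2.2⟩

end Pool.Agent.Lib.MP_364230_h58
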