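import Pool.Agent.Lib.MP_364230_h58.Numbers

/-!
# The conjectured inequality for graphs whose bipartite subgraphs have large forests

If every nonempty set which induces a bipartite subgraph contains more than two thirds of itself
as an induced forest, then `2 f ≥ p + b + 1`.  (MP_364230_co, helper58)
-/

set_option autoImplicit false
open Finset

namespace Pool.Agent.Lib.MP_364230_h58

variable {V : Type*} {G : SimpleGraph V}

theorem count_eq (L : List (List V)) : ∀ L' : List (List V), (∀ l ∈ L', l ≠ []) →
    2 * L'.length + 2 * (L'.flatMap (fW G L)).length =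
      3 * (L'.flatMap (fS G L)).length + (L'.flatMap ends).length := by
  intro L'
  induction L' with
  | nil => intro _; simp
  | cons l t ih =>
    intro h
    have h1 := ih fun l hl => h l (by simp [hl])
    have h2 : 2 + 2 * (fW G L l).length = 3 * (fS G L l).length + (ends l).length := by
      by_cases hP : Pt G L l
      · have e1 : fW G L l = l := by unfold fW; rw [if_pos hP]
        have e2 : fS G L l = ends l := by unfold fS; rw [if_pos hP]
        rw [e1, e2]
        rcases hP with ⟨s, rfl⟩ | ⟨a, m, c, rfl, _⟩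
        · simp [ends]
        · simp [ends]
      · have e1 : fW G L l = [] := by unfold fW; rw [if_neg hP]
        have e2 : fS G L l = [] := by unfold fS; rw [if_neg hP]
        rw [e1, e2, ends_length_two (not_pt_length (h l (by simp)) hP)]
        simp
    simp only [List.flatMap_cons, List.length_append, List.length_cons]
    omega

/-- a finite set in which each vertex has two neighbours -/
def Core (G : SimpleGraph V) (C : Finset V) : Prop :=
  C.Nonempty ∧ ∀ v ∈ C, ∃ x ∈ C, ∃ y ∈ C, x ≠ y ∧ G.Adj v x ∧ G.Adj v y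

/-- a set without such subsets induces a forest -/
theorem acyclic_of_no_core {F : Finset V} (h : ∀ C ⊆ F, ¬ Core G C) :
    (G.induce (F : Set V)).IsAcyclic := by
  classical
  intro v c hc
  let C : Finset V := c.support.toFinset.image Subtype.val
  refine h C ?_ ⟨⟨v.1, ?_⟩, ?_⟩
  · intro x hx
    simp only [C, mem_image, List.mem_toFinset] at hx
    obtain ⟨y, _, rfl⟩ := hx
    exact y.2
  · simp only [C, mem_image, List.mem_toFinset]
    exact ⟨v, c.start_mem_support, rfl⟩
  · intro x hx
    simp only [C, mem_image, List.mem_toFinset] at hx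
    obtain ⟨y, hy, rfl⟩ := hx
    have hc' := hc.rotate hy
    have h1 := SimpleGraph.Walk.adj_snd hc'.not_nil
    have h2 := (SimpleGraph.Walk.adj_penultimate hc'.not_nil).symm
    have h3 := hc'.snd_ne_penultimate
    have hmem : ∀ z, z ∈ (c.rotate y hy).support → z.1 ∈ C := by
      intro z hz
      simp only [C, mem_image, List.mem_toFinset]
      refine ⟨z, ?_, rfl⟩
      exact (SimpleGraph.Walk.mem_support_rotate_iff _ _ hy).1 hz
    refine ⟨_, hmem _ (SimpleGraph.Walk.getVert_mem_support _ 1), _,
      hmem _ (SimpleGraph.Walk.getVert_mem_support _ _), fun h4 => h3 (Subtype.ext h4), h1, h2⟩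

theorem induce_union [DecidableEq V] {S F : Finset V}
    (hS : ∀ x ∈ S, ∀ y ∈ S ∪ F, ¬ G.Adj x y)
    (hF : (G.induce (F : Set V)).IsAcyclic) :
    (G.induce ((S ∪ F : Finset V) : Set V)).IsAcyclic := by
  intro v c hc
  have key : ∀ x ∈ c.support, x ∈ {x : ((S ∪ F : Finset V) : Set V) | x.1 ∈ F} := by
    intro x hx
    have hc' := hc.rotate hx
    have h1 := SimpleGraph.Walk.adj_snd hc'.not_nil
    rcases mem_union.1 (show x.1 ∈ S ∪ F from x.2) with h2 | h2
    · exact (hS x.1 h2 _ (c.rotate x hx).snd.2 h1).elim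
    · exact h2
  have hc1 : (c.induce _ key).IsCycle := by
    have h2 := c.map_induce key
    rw [← h2] at hc
    exact hc.of_map
  let φ : ((G.induce ((S ∪ F : Finset V) : Set V)).induce
      {x : ((S ∪ F : Finset V) : Set V) | x.1 ∈ F}) →g (G.induce (F : Set V)) :=
    ⟨fun x => ⟨x.1.1, x.2⟩, fun h => h⟩
  have hinj : Function.Injective φ := by
    intro a b hab
    have h3 : a.1.1 = b.1.1 := congrArg (fun z : (F : Set V) => z.1) hab
    exact Subtype.ext (Subtype.ext h3)
  exact hF.comap φ hinj _ hc1

/-- every set inducing a bipartite subgraph contains more than two thirds of itself as an induced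
forest -/
def BigForests (G : SimpleGraph V) : Prop :=
  ∀ B : Finset V, B.Nonempty → (G.induce (B : Set V)).Colorable 2 →
    ∃ F ⊆ B, (G.induce (F : Set V)).IsAcyclic ∧ 2 * B.card + 1 ≤ 3 * F.card

/-- the split-off set: its neighbours lie in `W` and outside it -/
theorem split_off [DecidableEq V] {L : List (List V)} (hL : Opt G L) :
    (L.flatMap (fS G L)).toFinset ⊆ (L.flatMap (fW G L)).toFinset ∧
    ∀ x ∈ (L.flatMap (fS G L)).toFinset, ∀ y, G.Adj x y →
      y ∈ (L.flatMap (fW G L)).toFinset ∧ y ∉ (L.flatMap (fS G L)).toFinset := by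
  classical
  have hSr : ∀ x ∈ (L.flatMap (fS G L)).toFinset, Rch G L x := by
    intro x hx
    rw [List.mem_toFinset, List.mem_flatMap] at hx
    obtain ⟨l, hl, hx⟩ := hx
    unfold fS at hx
    split_ifs at hx with hP
    · rcases hP with ⟨s, rfl⟩ | ⟨a, m, c, rfl, s, hs, hsm⟩
      · simp only [ends, List.mem_singleton] at hx
        subst hx
        exact Rch.base hl
      · have h1 := rch_ends hs a m c hsm hl
        simp only [ends, List.mem_cons, List.getLast_cons_cons, List.getLast_singleton,
          List.not_mem_nil, or_false] at hx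
        rcases hx with rfl | rfl
        · exact h1.1
        · exact h1.2
    · simp at hx
  constructor
  · intro x hx
    rw [List.mem_toFinset, List.mem_flatMap] at hx
    obtain ⟨l, hl, hx⟩ := hx
    rw [List.mem_toFinset, List.mem_flatMap]
    refine ⟨l, hl, ?_⟩
    unfold fS at hx
    unfold fW
    split_ifs at hx ⊢ with hP
    · exact (ends_sublist l).subset hx
    · exact hx
  · intro x hx y hxy
    have h1 := hSr x hx
    obtain ⟨a, c, hac⟩ := rch_nbr h1 hL y hxy
    constructor
    · rw [List.mem_toFinset, List.mem_flatMap]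
      refine ⟨[a, y, c], hac, ?_⟩
      have hP : Pt G L [a, y, c] := Or.inr ⟨a, y, c, rfl, x, h1, hxy⟩
      unfold fW
      rw [if_pos hP]
      simp
    · intro hy
      exact rch_not_cen (hSr y hy) hL ⟨a, c, hac⟩

/-- the ends induce a forest -/
theorem ends_forest [DecidableEq V] {L : List (List V)} (hL : Opt G L) :
    (G.induce (((L.flatMap ends).toFinset : Finset V) : Set V)).IsAcyclic := by
  refine acyclic_of_le_one ?_
  rintro ⟨x, hx⟩ ⟨y, hy⟩ ⟨z, hz⟩ hxy hxz
  have hxy : G.Adj x y := hxy
  have hxz : G.Adj x z := hxz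
  have hx : x ∈ (L.flatMap ends).toFinset := hx
  have hy : y ∈ (L.flatMap ends).toFinset := hy
  have hz : z ∈ (L.flatMap ends).toFinset := hz
  rw [List.mem_toFinset, List.mem_flatMap] at hx hy hz
  obtain ⟨l1, hl1, hx1⟩ := hx
  obtain ⟨l2, hl2, hx2⟩ := hy
  obtain ⟨l3, hl3, hx3⟩ := hz
  have e1 : l1 = l2 := by
    by_contra hne
    obtain ⟨L', hp'⟩ := perm_two hl1 hl2 hne
    exact end_nadj hL hp' (isEnd_of_mem hx1) (isEnd_of_mem hx2) hxy
  have e2 : l1 = l3 := by
    by_contra hne
    obtain ⟨L', hp'⟩ := perm_two hl1 hl3 hne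
    exact end_nadj hL hp' (isEnd_of_mem hx1) (isEnd_of_mem hx3) hxz
  subst e1
  subst e2
  exact Subtype.ext (ends_three hx1 hx2 hx3 hxy.ne' hxz.ne')

/-- **The criterion.** -/
theorem criterion [Fintype V] (G : SimpleGraph V) (he : ∃ u v, G.Adj u v)
    (hG : BigForests G) :
    pathCoverNumber G + bipartiteNumber G + 1 ≤ 2 * forestNumber G := by
  classical
  obtain ⟨L, hL⟩ := exists_opt (G := G)
  have hpL := path_le G L hL.cov
  have hnd := hL.cov.2.1
  obtain ⟨hSW, hSn⟩ := split_off hL
  obtain ⟨a, ha1, _⟩ := core G he (forestNumber G) (le_forest G) hL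
  set S := (L.flatMap (fS G L)).toFinset with hS
  set W := (L.flatMap (fW G L)).toFinset with hW
  have cS : S.card = (L.flatMap (fS G L)).length := card_flatMap _ (fS_sublist L) hnd
  have cW : W.card = (L.flatMap (fW G L)).length := card_flatMap _ (fW_sublist L) hnd
  have cE : (L.flatMap ends).toFinset.card = (L.flatMap ends).length :=
    card_flatMap _ ends_sublist hnd
  have hcount := count_eq (G := G) L L (fun l hl => (hL.cov.1 l hl).1)
  have hfE := le_forest G _ (ends_forest hL)
  obtain ⟨B, hBc, hB⟩ := exists_bip G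
  have h4 : B.card ≤ W.card + (B \ W).card := by
    have h5 : B ⊆ W ∪ (B \ W) := by
      intro x hx
      by_cases hxW : x ∈ W
      · exact mem_union_left _ hxW
      · exact mem_union_right _ (mem_sdiff.2 ⟨hx, hxW⟩)
    exact (card_le_card h5).trans (card_union_le _ _)
  rcases (B \ W).eq_empty_or_nonempty with hemp | hne
  · rw [hemp, card_empty] at h4
    omega
  · have hcol : (G.induce ((B \ W : Finset V) : Set V)).Colorable 2 := by
      obtain ⟨C⟩ := hB
      refine ⟨SimpleGraph.Coloring.mk
        (fun x => C ⟨x.1, (mem_sdiff.1 (show x.1 ∈ B \ W from x.2)).1⟩) ?_⟩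
      rintro ⟨x, hx⟩ ⟨y, hy⟩ hxy
      exact C.valid hxy
    obtain ⟨F, hFB, hFa, hFc⟩ := hG _ hne hcol
    have hdis : Disjoint S F := by
      rw [disjoint_left]
      intro x hx hxF
      exact (mem_sdiff.1 (hFB hxF)).2 (hSW hx)
    have hun := le_forest G (S ∪ F) (induce_union (fun x hx y hy hxy => by
      obtain ⟨h1, h2⟩ := hSn x hx y hxy
      rcases mem_union.1 hy with hy | hy
      · exact h2 hy
      · exact (mem_sdiff.1 (hFB hy)).2 h1) hFa)
    rw [card_union_of_disjoint hdis] at hun
    omega

end Pool.Agent.Lib.MP_364230_h58
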