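import Pool.Agent.Lib.MP_364230_h58.Bip2

/-!
# The inequality for bipartite graphs (MP_364230_co)  (helper58)
-/

set_option autoImplicit false
open Finset

namespace Pool.Agent.Lib.MP_364230_h58

variable {V : Type*} {G : SimpleGraph V}

theorem count_bip (c : V → Bool) (hcol : ∀ x y, G.Adj x y → c x ≠ c y) {L : List (List V)}
    (hL : Opt G L) : ∀ L' : List (List V), (∀ l ∈ L', l ∈ L) →
    5 * L'.length + L'.flatten.length + 4 * (L'.flatMap (fW G L)).length ≤
      8 * (L'.flatMap (fS G L)).length + 2 * ((L'.flatMap (fF G c L true)).length +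
        (L'.flatMap (fF G c L false)).length) := by
  intro L'
  induction L' with
  | nil => intro _; simp
  | cons l t ih =>
    intro h
    have h1 := ih fun l hl => h l (by simp [hl])
    have hl : l ∈ L := h l (by simp)
    have h2 : 5 + l.length + 4 * (fW G L l).length ≤ 8 * (fS G L l).length +
        2 * ((fF G c L true l).length + (fF G c L false l).length) := by
      by_cases hP : Pt G L l
      · have e1 : fW G L l = l := by unfold fW; rw [if_pos hP]
        have e2 : fS G L l = ends l := by unfold fS; rw [if_pos hP]
        have e3 : ∀ i, fF G c L i l = ends l := by intro i; unfold fF; rw [if_pos hP]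
        rw [e1, e2, e3, e3]
        rcases hP with ⟨s, rfl⟩ | ⟨a, m, c, rfl, _⟩
        · simp [ends]
        · simp [ends]
      · have e1 : fW G L l = [] := by unfold fW; rw [if_neg hP]
        have e2 : fS G L l = [] := by unfold fS; rw [if_neg hP]
        have e3 : ∀ i, fF G c L i l = sel G c L i l := by intro i; unfold fF; rw [if_neg hP]
        obtain ⟨x, m, y, rfl⟩ := exists_form (not_pt_length (hL.cov.1 l hl).1 hP)
        have h3 := sel_count c hcol hL hl
        rw [e1, e2, e3, e3]
        simp only [List.length_cons, List.length_append, List.length_nil] at h3 ⊢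
        omega
    simp only [List.flatMap_cons, List.flatten_cons, List.length_append, List.length_cons]
    omega

/-- **The inequality for bipartite graphs.** -/
theorem main_bip [Fintype V] (G : SimpleGraph V) (he : ∃ u v, G.Adj u v)
    (hG : G.Colorable 2) (p f : ℕ) (hp : ∀ L, IsPathCover G L → p ≤ L.length)
    (hf : ∀ S : Finset V, (G.induce (S : Set V)).IsAcyclic → S.card ≤ f) :
    5 * (p + Fintype.card V) + 8 ≤ 12 * f := by
  classical
  obtain ⟨C⟩ := hG
  let c : V → Bool := fun v => decide (C v = 0)
  have hcol : ∀ x y, G.Adj x y → c x ≠ c y := by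
    intro x y hxy h
    have h1 := C.valid hxy
    have h2 : (C x = 0) ↔ (C y = 0) := by simpa [c] using h
    apply h1
    rcases Fin.exists_fin_two.1 ⟨C x, rfl⟩ with h3 | h3 <;>
      rcases Fin.exists_fin_two.1 ⟨C y, rfl⟩ with h4 | h4 <;>
      omega
  obtain ⟨L, hL⟩ := exists_opt (G := G)
  have hpL := hp L hL.cov
  have hnd := hL.cov.2.1
  obtain ⟨a, ha1, ha2⟩ := core G he f hf hL
  have hV := ha2 univ ⟨C.comp (SimpleGraph.Embedding.induce _).toHom⟩
  rw [card_univ] at hV
  have hcount := count_bip c hcol hL L (fun l hl => hl)
  have hlen : L.flatten.length = Fintype.card V := by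
    rw [← List.toFinset_card_of_nodup hnd, ← card_univ]
    congr 1
    ext v
    simp only [List.mem_toFinset, mem_univ, iff_true]
    exact hL.cov.2.2 v
  have hforest : ∀ i : Bool, (L.flatMap (fF G c L i)).length ≤ f := by
    intro i
    have h1 : (L.flatMap (fF G c L i)).toFinset.card = (L.flatMap (fF G c L i)).length :=
      card_flatMap _ (fF_sublist c L i) hnd
    rw [← h1]
    refine hf _ (forest_col c hcol hL i _ ?_)
    intro x hx
    rw [List.mem_toFinset, List.mem_flatMap] at hx
    exact hx
  have hT := hforest true
  have hF := hforest false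
  omega

end Pool.Agent.Lib.MP_364230_h58
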