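import Pool.Agent.Lib.MP_364230_h58.Main

/-!
# The three invariants (MP_364230_co)  (helper58)
-/

set_option autoImplicit false
open Finset

namespace Pool.Agent.Lib.MP_364230_h58

variable {V : Type*}

/-- `p(G)`: the least number of vertex-disjoint paths which cover the vertices. -/
noncomputable def pathCoverNumber (G : SimpleGraph V) : ℕ :=
  sInf {k | ∃ L : List (List V), IsPathCover G L ∧ L.length = k}

/-- `f(G)`: the largest order of an induced forest. -/
noncomputable def forestNumber (G : SimpleGraph V) : ℕ :=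
  sSup {k | ∃ S : Finset V, (G.induce (S : Set V)).IsAcyclic ∧ S.card = k}

/-- `b(G)`: the largest order of an induced bipartite subgraph. -/
noncomputable def bipartiteNumber (G : SimpleGraph V) : ℕ :=
  sSup {k | ∃ S : Finset V, (G.induce (S : Set V)).Colorable 2 ∧ S.card = k}

theorem path_le (G : SimpleGraph V) (L : List (List V)) (h : IsPathCover G L) :
    pathCoverNumber G ≤ L.length := Nat.sInf_le ⟨L, h, rfl⟩

variable [Fintype V]

theorem le_forest (G : SimpleGraph V) (S : Finset V) (h : (G.induce (S : Set V)).IsAcyclic) :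
    S.card ≤ forestNumber G := by
  refine le_csSup ⟨Fintype.card V, ?_⟩ ⟨S, h, rfl⟩
  rintro k ⟨T, _, rfl⟩
  exact card_le_univ T

theorem exists_bip (G : SimpleGraph V) :
    ∃ S : Finset V, S.card = bipartiteNumber G ∧ (G.induce (S : Set V)).Colorable 2 := by
  have h1 : ({k | ∃ S : Finset V, (G.induce (S : Set V)).Colorable 2 ∧ S.card = k} :
      Set ℕ).Nonempty := by
    refine ⟨0, ∅, ?_, rfl⟩
    refine ⟨SimpleGraph.Coloring.mk (fun _ => 0) ?_⟩
    rintro ⟨x, hx⟩
    simp at hx
  have h2 : BddAbove ({k | ∃ S : Finset V, (G.induce (S : Set V)).Colorable 2 ∧ S.card = k} :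
      Set ℕ) := by
    refine ⟨Fintype.card V, ?_⟩
    rintro k ⟨T, _, rfl⟩
    exact card_le_univ T
  obtain ⟨S, hS, hc⟩ := Nat.sSup_mem h1 h2
  exact ⟨S, hc, hS⟩

theorem bip_le (G : SimpleGraph V) : bipartiteNumber G ≤ Fintype.card V := by
  obtain ⟨S, hS, _⟩ := exists_bip G
  rw [← hS]
  exact card_le_univ S

end Pool.Agent.Lib.MP_364230_h58
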