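import Pool.Agent.Lib.MP_364230_h58.Crit

/-!
# Graphs of treewidth at most two satisfy the criterion (MP_364230_co, helper58)
-/

set_option autoImplicit false
open Finset

namespace Pool.Agent.Lib.MP_364230_h58

variable {V : Type*} {G : SimpleGraph V}

/-- `G` has treewidth at most two: it is contained in a graph `T` on the same vertices which has an
elimination order `r` in which every vertex has at most two later neighbours, and two of them are
adjacent (`T` is chordal without cliques of four vertices). -/
def TreewidthLeTwo (G : SimpleGraph V) : Prop :=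
  ∃ (T : SimpleGraph V) (r : V → ℕ), Function.Injective r ∧ G ≤ T ∧
    ∀ v a b : V, T.Adj v a → T.Adj v b → r v < r a → r v < r b → a ≠ b →
      T.Adj a b ∧ ∀ c, T.Adj v c → r v < r c → c = a ∨ c = b

section

variable {T : SimpleGraph V} {r : V → ℕ}

theorem exists_colouring (hr : Function.Injective r)
    (hT : ∀ v a b : V, T.Adj v a → T.Adj v b → r v < r a → r v < r b → a ≠ b →
      T.Adj a b ∧ ∀ c, T.Adj v c → r v < r c → c = a ∨ c = b) (S : Finset V) :
    ∃ c : V → Fin 3, ∀ v ∈ S, ∀ w ∈ S, T.Adj v w → c v ≠ c w := by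
  classical
  induction S using Finset.induction_on_min_value r with
  | empty => exact ⟨fun _ => 0, by simp⟩
  | insert a s ha hmin ih =>
    obtain ⟨c, hc⟩ := ih
    have hlt : ∀ x ∈ s, r a < r x := by
      intro x hx
      refine lt_of_le_of_ne (hmin x hx) fun h => ha ?_
      rw [hr h]
      exact hx
    -- the later neighbours use at most two colours
    obtain ⟨k, hk⟩ : ∃ k : Fin 3, ∀ x ∈ s, T.Adj a x → c x ≠ k := by
      by_cases h1 : ∃ x ∈ s, T.Adj a x
      · obtain ⟨x, hx, hax⟩ := h1
        by_cases h2 : ∃ y ∈ s, T.Adj a y ∧ y ≠ x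
        · obtain ⟨y, hy, hay, hyx⟩ := h2
          have h3 := (hT a y x hay hax (hlt y hy) (hlt x hx) hyx).2
          obtain ⟨k, hk⟩ : ∃ k : Fin 3, c y ≠ k ∧ c x ≠ k := by
            generalize c y = p
            generalize c x = q
            revert p q
            decide
          refine ⟨k, fun z hz haz => ?_⟩
          rcases h3 z haz (hlt z hz) with rfl | rfl
          · exact hk.1
          · exact hk.2
        · push Not at h2
          obtain ⟨k, hk⟩ : ∃ k : Fin 3, c x ≠ k := by
            generalize c x = q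
            revert q
            decide
          refine ⟨k, fun z hz haz => ?_⟩
          rw [h2 z hz haz]
          exact hk
      · push Not at h1
        exact ⟨0, fun x hx hax => absurd hax (h1 x hx)⟩
    refine ⟨Function.update c a k, ?_⟩
    have hne : ∀ x ∈ s, x ≠ a := fun x hx h => ha (h ▸ hx)
    intro v hv w hw hvw
    rw [mem_insert] at hv hw
    rcases hv with rfl | hv
    · rcases hw with rfl | hw
      · exact absurd rfl hvw.ne
      · rw [Function.update_self, Function.update_of_ne (hne w hw)]
        exact (hk w hw hvw).symm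
    · rcases hw with rfl | hw
      · rw [Function.update_self, Function.update_of_ne (hne v hv)]
        exact hk v hv hvw.symm
      · rw [Function.update_of_ne (hne v hv), Function.update_of_ne (hne w hw)]
        exact hc v hv w hw hvw

/-- two colour classes contain no core -/
theorem no_core_two (hr : Function.Injective r)
    (hT : ∀ v a b : V, T.Adj v a → T.Adj v b → r v < r a → r v < r b → a ≠ b →
      T.Adj a b ∧ ∀ c, T.Adj v c → r v < r c → c = a ∨ c = b) {B C : Finset V}
    (c : V → Fin 3) (hc : ∀ v ∈ B, ∀ w ∈ B, T.Adj v w → c v ≠ c w) (hCB : C ⊆ B) (i : Fin 3)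
    (hi : ∀ x ∈ C, c x ≠ i) : ¬ Core T C := by
  rintro ⟨hne, hC⟩
  obtain ⟨v, hv, hmin⟩ := exists_min_image C r hne
  obtain ⟨x, hx, y, hy, hxy, hvx, hvy⟩ := hC v hv
  have h1 : r v < r x := lt_of_le_of_ne (hmin x hx) fun h => hvx.ne (hr h)
  have h2 : r v < r y := lt_of_le_of_ne (hmin y hy) fun h => hvy.ne (hr h)
  have h3 := (hT v x y hvx hvy h1 h2 hxy).1
  have e1 := hc v (hCB hv) x (hCB hx) hvx
  have e2 := hc v (hCB hv) y (hCB hy) hvy
  have e3 := hc x (hCB hx) y (hCB hy) h3
  have e4 := hi v hv
  have e5 := hi x hx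
  have e6 := hi y hy
  omega

end

theorem treewidth_big (h : TreewidthLeTwo G) : BigForests G := by
  classical
  obtain ⟨T, r, hr, hGT, hT⟩ := h
  rintro B hB ⟨C⟩
  obtain ⟨c, hc⟩ := exists_colouring hr hT B
  obtain ⟨w, hw, hwmin⟩ := exists_min_image B r hB
  let cls : Fin 3 → Finset V := fun i => B.filter fun x => c x = i
  have hsum : B.card = (cls 0).card + (cls 1).card + (cls 2).card := by
    have h1 : B.card = ∑ i : Fin 3, (B.filter fun x => c x = i).card :=
      card_eq_sum_card_fiberwise fun _ _ => mem_univ _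
    rw [h1, Fin.sum_univ_three]
  have hsd : ∀ i, (B \ cls i).card + (cls i).card = B.card := fun i =>
    card_sdiff_add_card_eq_card (filter_subset _ _)
  by_cases hsmall : ∃ i, 3 * (cls i).card < B.card
  · obtain ⟨i, hi⟩ := hsmall
    refine ⟨B \ cls i, sdiff_subset, acyclic_of_no_core fun D hD hcore => ?_, ?_⟩
    · refine no_core_two hr hT c hc (hD.trans sdiff_subset) i (fun x hx h1 => ?_)
        ⟨hcore.1, fun v hv => ?_⟩
      · have h2 := hD hx
        rw [mem_sdiff] at h2
        exact h2.2 (mem_filter.2 ⟨h2.1, h1⟩)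
      · obtain ⟨x, hx, y, hy, hxy, h1, h2⟩ := hcore.2 v hv
        exact ⟨x, hx, y, hy, hxy, hGT h1, hGT h2⟩
    · have := hsd i
      omega
  · push Not at hsmall
    have h0 := hsmall 0
    have h1 := hsmall 1
    have h2 := hsmall 2
    have hall : ∀ i, 3 * (cls i).card = B.card := by
      intro i
      fin_cases i
      · change 3 * (cls 0).card = _
        omega
      · change 3 * (cls 1).card = _
        omega
      · change 3 * (cls 2).card = _
        omega
    have hwc : w ∉ B \ cls (c w) := by
      rw [mem_sdiff]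
      rintro ⟨_, h3⟩
      exact h3 (mem_filter.2 ⟨hw, rfl⟩)
    refine ⟨insert w (B \ cls (c w)), insert_subset hw sdiff_subset,
      acyclic_of_no_core fun D hD hcore => ?_, ?_⟩
    · have hDB : ∀ x ∈ D, x ∈ B := by
        intro x hx
        rcases mem_insert.1 (hD hx) with rfl | h3
        · exact hw
        · exact (mem_sdiff.1 h3).1
      have hDc : ∀ x ∈ D, x ≠ w → c x ≠ c w := by
        intro x hx hxw h3
        rcases mem_insert.1 (hD hx) with rfl | h4
        · exact hxw rfl
        · rw [mem_sdiff] at h4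
          exact h4.2 (mem_filter.2 ⟨h4.1, h3⟩)
      by_cases hwD : w ∈ D
      · obtain ⟨x, hx, y, hy, hxy, hwx, hwy⟩ := hcore.2 w hwD
        have hlt : ∀ z ∈ D, z ≠ w → r w < r z := fun z hz hzw =>
          lt_of_le_of_ne (hwmin z (hDB z hz)) fun h => hzw (hr h).symm
        obtain ⟨hTxy, honly⟩ := hT w x y (hGT hwx) (hGT hwy) (hlt x hx hwx.ne') (hlt y hy hwy.ne')
          hxy
        have hnxy : ¬ G.Adj x y := by
          intro h3
          have e1 := C.valid (v := ⟨w, hw⟩) (w := ⟨x, hDB x hx⟩) hwx
          have e2 := C.valid (v := ⟨w, hw⟩) (w := ⟨y, hDB y hy⟩) hwy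
          have e3 := C.valid (v := ⟨x, hDB x hx⟩) (w := ⟨y, hDB y hy⟩) h3
          have key : ∀ p q s : Fin 2, p ≠ q → p ≠ s → q ≠ s → False := by decide
          exact key _ _ _ e1 e2 e3
        refine no_core_two hr hT (C := D.erase w) c hc
          (fun z hz => hDB z (mem_of_mem_erase hz)) (c w)
          (fun z hz => hDc z (mem_of_mem_erase hz) (ne_of_mem_erase hz)) ⟨⟨x, ?_⟩, ?_⟩
        · exact mem_erase.2 ⟨hwx.ne', hx⟩
        · intro v hv
          rw [mem_erase] at hv
          obtain ⟨a, ha, b, hb, hab, hva, hvb⟩ := hcore.2 v hv.2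
          -- a neighbour of `w` in `D`
          have hfix : G.Adj v w → ∀ b ∈ D, b ≠ w → G.Adj v b →
              ∃ x ∈ D.erase w, ∃ y ∈ D.erase w, x ≠ y ∧ T.Adj v x ∧ T.Adj v y := by
            intro hvw b hb hbw hvb
            rcases honly v (hGT hvw.symm) (hlt v hv.2 hv.1) with rfl | rfl
            · refine ⟨b, mem_erase.2 ⟨hbw, hb⟩, y, mem_erase.2 ⟨hwy.ne', hy⟩, ?_, hGT hvb, hTxy⟩
              rintro rfl
              exact hnxy hvb
            · refine ⟨b, mem_erase.2 ⟨hbw, hb⟩, x, mem_erase.2 ⟨hwx.ne', hx⟩, ?_, hGT hvb,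
                hTxy.symm⟩
              rintro rfl
              exact hnxy hvb.symm
          by_cases haw : a = w
          · subst haw
            exact hfix hva b hb hab.symm hvb
          · by_cases hbw : b = w
            · subst hbw
              exact hfix hvb a ha hab hva
            · exact ⟨a, mem_erase.2 ⟨haw, ha⟩, b, mem_erase.2 ⟨hbw, hb⟩, hab, hGT hva, hGT hvb⟩
      · refine no_core_two hr hT (C := D) c hc hDB (c w)
          (fun z hz => hDc z hz fun h => hwD (h ▸ hz)) ⟨hcore.1, fun v hv => ?_⟩
        obtain ⟨x, hx, y, hy, hxy, h1, h2⟩ := hcore.2 v hv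
        exact ⟨x, hx, y, hy, hxy, hGT h1, hGT h2⟩
    · rw [card_insert_of_notMem hwc]
      have h3 := hsd (c w)
      have h4 := hall (c w)
      omega

end Pool.Agent.Lib.MP_364230_h58
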